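import Mathlib

/-!
# Thrifty branching programs for the tree evaluation problem

Definitions, following Cook, McKenzie, Wehr, Braverman and Santhanam,
*Pebbles and branching programs for tree evaluation* (2012).
-/

set_option autoImplicit false

namespace Pool.Agent.H554R2.Thrifty

/-- The input variables of the tree evaluation problem on the complete binary tree with `n + 1`
levels over the alphabet `Fin k`.  A tree with one level is a single leaf and has one variable,
the value of the leaf.  A tree with `n + 2` levels has the `k²` entries of the table of the
function `[k] × [k] → [k]` at the root, and the variables of its two subtrees (`false` is the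
left subtree, `true` the right one). -/
def Var (k : ℕ) : ℕ → Type
  | 0 => Unit
  | n + 1 => (Fin k × Fin k) ⊕ (Bool × Var k n)

/-- An input assigns an element of `Fin k` to every variable. -/
abbrev Input (k n : ℕ) : Type := Var k n → Fin k

/-- The restriction of an input to the left (`false`) or right (`true`) subtree of the root. -/
def sub {k n : ℕ} (x : Input k (n + 1)) (s : Bool) : Input k n := fun v => x (Sum.inr (s, v))

/-- The value of the root of the tree: the value of a leaf is the value of its variable, the value
of an inner node is its function applied to the values of its two children. -/
def value {k : ℕ} : (n : ℕ) → Input k n → Fin k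
  | 0, x => x ()
  | n + 1, x => x (Sum.inl (value n (sub x false), value n (sub x true)))

/-- The thrifty variables of an input: all leaf variables, and for every inner node the table
entry `f (a, b)` for which `a` and `b` are the values of the two children of the node. -/
def ThriftyVar {k : ℕ} : (n : ℕ) → Input k n → Var k n → Prop
  | 0, _, _ => True
  | n + 1, x, Sum.inl p => p = (value n (sub x false), value n (sub x true))
  | n + 1, x, Sum.inr (s, v) => ThriftyVar n (sub x s) v

/-- A (nondeterministic) `k`-way branching program over the set `V` of variables, for a decision
problem.  `State` is the set of non-final states, `Bool` is the set of the two final states; the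
non-final state `q` queries the variable `query q`, and `edge q c t` says that there is an edge
with label `c` from `q` to `t`. -/
structure BP (V : Type) (k : ℕ) where
  /-- the non-final states -/
  State : Type
  /-- there are finitely many of them -/
  [fintype : Fintype State]
  /-- the start state -/
  start : State
  /-- the variable queried in a non-final state -/
  query : State → V
  /-- the labelled edges -/
  edge : State → Fin k → State ⊕ Bool → Prop

attribute [instance] BP.fintype

namespace BP

variable {V : Type} {k : ℕ}

/-- The size of a branching program is its number of states, the two final states included. -/
def size (P : BP V k) : ℕ := Fintype.card P.State + 2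

/-- `P.IsPath x l r`: the list `l` of non-final states, followed by the final state `r`, is a path
of `P` all of whose edges are activated by the input `x`. -/
def IsPath (P : BP V k) (x : V → Fin k) : List P.State → Bool → Prop
  | [], _ => False
  | [q], r => P.edge q (x (P.query q)) (Sum.inr r)
  | q :: q' :: l, r => P.edge q (x (P.query q)) (Sum.inl q') ∧ P.IsPath x (q' :: l) r

/-- `P.IsComp x l r`: the list `l` of non-final states is a computation of `P` on the input `x`
which starts in the start state and ends in the final state `r`. -/
def IsComp (P : BP V k) (x : V → Fin k) (l : List P.State) (r : Bool) : Prop :=
  l.head? = some P.start ∧ P.IsPath x l r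

/-- `P` is deterministic: every non-final state has exactly one outgoing edge with each label. -/
def Deterministic (P : BP V k) : Prop :=
  ∀ (q : P.State) (c : Fin k), ∃! t : P.State ⊕ Bool, P.edge q c t

/-- `P` is unambiguous: on every input at most one computation ends in a final state. -/
def Unambiguous (P : BP V k) : Prop :=
  ∀ (x : V → Fin k) (l l' : List P.State) (r r' : Bool),
    P.IsComp x l r → P.IsComp x l' r' → l = l' ∧ r = r'

/-- `P` solves the decision problem `f`: on every input `x` at least one computation ends in a
final state, and every computation that ends in a final state ends in the final state `f x`. -/
def Solves (P : BP V k) (f : (V → Fin k) → Bool) : Prop :=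
  ∀ x : V → Fin k, (∃ l, P.IsComp x l (f x)) ∧ ∀ l r, P.IsComp x l r → r = f x

/-- `P` is thrifty: on every input, every computation that ends in a final state queries only
thrifty variables of that input. -/
def Thrifty {n : ℕ} (P : BP (Var k n) k) : Prop :=
  ∀ (x : Input k n) (l : List P.State) (r : Bool), P.IsComp x l r →
    ∀ q ∈ l, ThriftyVar n x (P.query q)

end BP

/-- The Boolean tree evaluation problem: is the value of the root equal to `0`? -/
def BT (k n : ℕ) (x : Input k n) : Bool := decide ((value n x).val = 0)

end Pool.Agent.H554R2.Thrifty
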