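import Pool.Agent.H554R2.Thrifty.ToBP

/-!
# Parameters from Behrend's theorem
-/

set_option autoImplicit false

namespace Pool.Agent.H554R2.Thrifty

open Real

/-- An enumeration of a 3AP-free set. -/
theorem exists_iota (B R : ℕ) (h : B ≤ rothNumberNat R) :
    ∃ f : ℕ → ℕ, (∀ y, y < B → f y < R) ∧
      ∀ y y' y'', y < B → y' < B → y'' < B → f y + f y' = 2 * f y'' → y = y'' ∧ y' = y'' := by
  obtain ⟨t, htR, htc, ht⟩ := rothNumberNat_spec R
  have hB : B ≤ t.card := by rw [htc]; exact h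
  let g := t.orderEmbOfCardLe hB
  have hg : ∀ a, g a ∈ t := fun a => t.orderEmbOfCardLe_mem hB a
  refine ⟨fun y => if hy : y < B then g ⟨y, hy⟩ else 0, ?_, ?_⟩
  · intro y hy
    simp only [dif_pos hy]
    exact Finset.mem_range.1 (htR (hg _))
  · intro y y' y'' hy hy' hy'' he
    simp only [dif_pos hy, dif_pos hy', dif_pos hy''] at he
    have h1 : g ⟨y, hy⟩ = g ⟨y'', hy''⟩ := ht (hg ⟨y, hy⟩) (hg ⟨y'', hy''⟩) (hg ⟨y', hy'⟩) (by omega)
    have h2 : g ⟨y', hy'⟩ = g ⟨y'', hy''⟩ := by omega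
    have h3 := g.injective h1
    have h4 := g.injective h2
    simp only [Fin.mk.injEq] at h3 h4
    exact ⟨h3, h4⟩

/-- Behrend's bound in the form that we need. -/
theorem behrend_pow (c s : ℕ) (hc : 64 * ((s : ℝ) + 1) ≤ log c) :
    c ^ s ≤ rothNumberNat ((c - 1) * c ^ s) := by
  have hlog : (64 : ℝ) ≤ log c := by
    have : (0 : ℝ) ≤ s := Nat.cast_nonneg s
    linarith
  have hc0 : (0 : ℝ) < c := by
    by_contra h
    push Not at h
    have : (c : ℝ) = 0 := le_antisymm h (Nat.cast_nonneg c)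
    rw [this, log_zero] at hlog
    norm_num at hlog
  have hcbig : (3 : ℝ) ≤ c := by
    have h1 : log c ≤ c - 1 := log_le_sub_one_of_pos hc0
    linarith
  have hc3 : 3 ≤ c := by exact_mod_cast hcbig
  set R := (c - 1) * c ^ s with hR
  have hcast : ((c - 1 : ℕ) : ℝ) = (c : ℝ) - 1 := by
    rw [Nat.cast_sub (by omega)]; simp
  have hRpos : (0 : ℝ) < (R : ℝ) := by
    rw [hR]; push_cast; rw [hcast]
    have : (0 : ℝ) < (c : ℝ) - 1 := by linarith
    positivity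
  have hRle : log R ≤ (s + 1) * log c := by
    have h1 : (R : ℝ) ≤ (c : ℝ) ^ (s + 1) := by
      rw [hR]; push_cast; rw [hcast, pow_succ]
      have : (0 : ℝ) ≤ (c : ℝ) ^ s := by positivity
      nlinarith
    calc log R ≤ log ((c : ℝ) ^ (s + 1)) := log_le_log hRpos h1
      _ = (s + 1) * log c := by rw [log_pow]; push_cast; ring
  have hsq : (c : ℝ) ≤ ((c : ℝ) - 1) ^ 2 := by nlinarith
  have hlog1 : log c ≤ 2 * log ((c : ℝ) - 1) := by
    have : (0 : ℝ) < (c : ℝ) - 1 := by linarith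
    calc log c ≤ log (((c : ℝ) - 1) ^ 2) := log_le_log hc0 hsq
      _ = 2 * log ((c : ℝ) - 1) := by rw [log_pow]; norm_num
  have hs0 : (0 : ℝ) ≤ s := Nat.cast_nonneg s
  have hroot : 4 * √(log R) ≤ log ((c : ℝ) - 1) := by
    have h1 : √(log R) ≤ log c / 8 := by
      rw [Real.sqrt_le_left (by linarith)]
      calc log R ≤ (s + 1) * log c := hRle
        _ ≤ (log c / 8) ^ 2 := by nlinarith
    linarith
  have hexp : (c : ℝ) ^ s ≤ (R : ℝ) * exp (-4 * √(log R)) := by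
    have h2 : exp (-(log ((c : ℝ) - 1))) ≤ exp (-4 * √(log R)) := exp_le_exp.2 (by linarith)
    have hcm : (0 : ℝ) < (c : ℝ) - 1 := by linarith
    rw [exp_neg, exp_log hcm] at h2
    calc (c : ℝ) ^ s = (R : ℝ) * ((c : ℝ) - 1)⁻¹ := by
          rw [hR]; push_cast; rw [hcast]; field_simp
      _ ≤ (R : ℝ) * exp (-4 * √(log R)) := mul_le_mul_of_nonneg_left h2 hRpos.le
  have := hexp.trans (Behrend.roth_lower_bound (N := R))
  exact_mod_cast this

/-- Parameters for a tree of index `n`, digits to the base `c ^ m`. -/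
theorem exists_params (k q m n c : ℕ) (hkb : k ≤ (c ^ m) ^ q)
    (hc : 64 * ((m : ℝ) + n + 2) ≤ log c) :
    ∃ P : Params k q, P.B 0 = c ^ (m + 1 + n) ∧ 2 ≤ P.B n := by
  classical
  have hc0 : (0 : ℝ) < c := by
    by_contra h
    push Not at h
    have : (c : ℝ) = 0 := le_antisymm h (Nat.cast_nonneg c)
    rw [this, log_zero] at hc
    have h1 : (0 : ℝ) ≤ m := Nat.cast_nonneg m
    have h2 : (0 : ℝ) ≤ n := Nat.cast_nonneg n
    linarith
  have hc2 : 2 ≤ c := by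
    have h1 : log c ≤ c - 1 := log_le_sub_one_of_pos hc0
    have h2 : (0 : ℝ) ≤ m := Nat.cast_nonneg m
    have h3 : (0 : ℝ) ≤ n := Nat.cast_nonneg n
    have h4 : (2 : ℝ) ≤ c := by linarith
    exact_mod_cast h4
  set B : ℕ → ℕ := fun i => if i ≤ n then c ^ (m + 1 + (n - i)) else 0 with hB
  have hex : ∀ i, ∃ f : ℕ → ℕ, (∀ y, y < B (i + 1) → f y + 2 * c ^ m ≤ B i) ∧
      ∀ y y' y'', y < B (i + 1) → y' < B (i + 1) → y'' < B (i + 1) →
        f y + f y' = 2 * f y'' → y = y'' ∧ y' = y'' := by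
    intro i
    by_cases hi : i + 1 ≤ n
    · have hBi1 : B (i + 1) = c ^ (m + 1 + (n - (i + 1))) := by simp [hB, hi]
      have hBi : B i = c * c ^ (m + 1 + (n - (i + 1))) := by
        have h1 : i ≤ n := by omega
        have h2 : m + 1 + (n - i) = (m + 1 + (n - (i + 1))) + 1 := by omega
        simp only [hB, if_pos h1, h2]
        ring
      set s := m + 1 + (n - (i + 1)) with hs
      have hsle : s ≤ m + n := by omega
      have hb : c ^ s ≤ rothNumberNat ((c - 1) * c ^ s) := by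
        apply behrend_pow
        have : (s : ℝ) ≤ m + n := by exact_mod_cast hsle
        linarith
      obtain ⟨f, hf1, hf2⟩ := exists_iota _ _ hb
      refine ⟨f, ?_, ?_⟩
      · intro y hy
        rw [hBi1] at hy
        have h1 := hf1 y hy
        have h2 : 2 * c ^ m ≤ c ^ s := by
          calc 2 * c ^ m ≤ c * c ^ m := Nat.mul_le_mul_right _ hc2
            _ = c ^ (m + 1) := by ring
            _ ≤ c ^ s := Nat.pow_le_pow_right (by omega) (by omega)
        have h3 : (c - 1) * c ^ s + c ^ s = c * c ^ s := by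
          have h4 : c = (c - 1) + 1 := by omega
          calc (c - 1) * c ^ s + c ^ s = ((c - 1) + 1) * c ^ s := by ring
            _ = c * c ^ s := by rw [← h4]
        rw [hBi]
        omega
      · intro y y' y'' h1 h2 h3
        rw [hBi1] at h1 h2 h3
        exact hf2 y y' y'' h1 h2 h3
    · have hBi1 : B (i + 1) = 0 := by simp [hB, hi]
      refine ⟨fun _ => 0, ?_, ?_⟩
      · intro y hy; rw [hBi1] at hy; omega
      · intro y y' y'' hy; rw [hBi1] at hy; omega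
  choose f hf1 hf2 using hex
  have hemb : Nonempty (Fin k ↪ (Fin q → Fin (c ^ m))) := by
    apply Function.Embedding.nonempty_of_card_le
    rw [Fintype.card_fin, Fintype.card_fun, Fintype.card_fin, Fintype.card_fin]
    exact hkb
  obtain ⟨φ⟩ := hemb
  have hmono : ∀ i, B (i + 1) ≤ B i := by
    intro i
    by_cases hi : i + 1 ≤ n
    · have h1 : i ≤ n := by omega
      simp only [hB, if_pos hi, if_pos h1]
      exact Nat.pow_le_pow_right (by omega) (by omega)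
    · simp [hB, hi]
  refine ⟨{ b := c ^ m
            dg := fun x t => (φ x t : ℕ)
            dg_lt := fun x t => (φ x t).2
            dg_inj := fun x x' h => φ.injective (by funext t; exact Fin.ext (h t))
            B := B
            lft := fun i u y => f i y + 2 * u
            rgt := fun i u y => f i y + u
            mono := hmono
            lft_lt := ?_
            rgt_lt := ?_
            lft_inj := ?_
            rgt_inj := ?_
            key := ?_ }, ?_, ?_⟩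
  · intro i u y hu hy
    have := hf1 i y hy
    omega
  · intro i u y hu hy
    have := hf1 i y hy
    omega
  · intro i u y y' hu hy hy' h
    exact (hf2 i y y' y' hy hy' hy' (by omega)).1
  · intro i u y y' hu hy hy' h
    exact (hf2 i y y' y' hy hy' hy' (by omega)).1
  · intro i u u' y y' y'' hu hu' hy hy' hy'' h h'
    obtain ⟨h1, h2⟩ := hf2 i y y' y'' hy hy' hy'' (by omega)
    subst h1 h2
    omega
  · simp [hB]
  · have h1 : 2 ≤ c ^ (m + 1) := by
      calc 2 ≤ c := hc2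
        _ = c ^ 1 := (pow_one c).symm
        _ ≤ c ^ (m + 1) := Nat.pow_le_pow_right (by omega) (by omega)
    simpa [hB] using h1

/-- The upper bound. -/
theorem upper (ε : ℝ) (hε : 0 < ε) : ∃ c₀ : ℝ, 0 < c₀ ∧ ∀ n k : ℕ, 2 ≤ k →
    (n : ℝ) + 1 ≤ c₀ * √(log k) →
    ∃ M : BP (Var k n) k, M.Unambiguous ∧ M.Solves (BT k n) ∧ M.Thrifty ∧
      (M.size : ℝ) ≤ (k : ℝ) ^ (4 + ε) := by
  obtain ⟨N, hN⟩ := exists_nat_gt (8 / ε)
  have hN0 : (0 : ℝ) < N := lt_of_le_of_lt (by positivity) hN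
  have hN1 : 1 ≤ N := by
    have : 0 < N := by exact_mod_cast hN0
    omega
  have hN1' : (1 : ℝ) ≤ N := by exact_mod_cast hN1
  have hNε : 4 / (N : ℝ) ≤ ε / 2 := by
    rw [div_lt_iff₀ hε] at hN
    rw [div_le_div_iff₀ hN0 (by norm_num)]
    linarith
  set K0 : ℝ := (4 * N + 1) + (N + 1) * (2 * N + 1) + 2 with hK0
  have hK0pos : 0 < K0 := by positivity
  set δ : ℝ := min (1 / (128 * N ^ 2 * (N + 1))) (ε / (2 * K0)) with hδ
  have hδpos : 0 < δ := by
    rw [hδ]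
    exact lt_min (by positivity) (by positivity)
  refine ⟨√δ, Real.sqrt_pos.2 hδpos, ?_⟩
  intro n k hk hn
  have hk1 : (1 : ℝ) < k := by
    have : (2 : ℝ) ≤ k := by exact_mod_cast hk
    linarith
  have hk0 : (0 : ℝ) < k := by linarith
  set L := log (k : ℝ) with hL
  have hLpos : 0 < L := log_pos hk1
  have hn0 : (0 : ℝ) ≤ n := Nat.cast_nonneg n
  have hsq : ((n : ℝ) + 1) ^ 2 ≤ δ * L := by
    calc ((n : ℝ) + 1) ^ 2 ≤ (√δ * √L) ^ 2 := by
          apply pow_le_pow_left₀ (by linarith) hn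
      _ = δ * L := by rw [mul_pow, Real.sq_sqrt hδpos.le, Real.sq_sqrt hLpos.le]
  have hδ1 : δ * (128 * N ^ 2 * (N + 1)) ≤ 1 := by
    have h1 : δ ≤ 1 / (128 * N ^ 2 * (N + 1)) := min_le_left _ _
    rwa [le_div_iff₀ (by positivity)] at h1
  have hδ2 : δ * K0 ≤ ε / 2 := by
    have h1 : δ ≤ ε / (2 * K0) := min_le_right _ _
    rw [le_div_iff₀ (by positivity)] at h1
    linarith
  -- parameters
  set m := N * (n + 1) with hm
  have hmcast : (m : ℝ) = N * ((n : ℝ) + 1) := by rw [hm]; push_cast; ring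
  have hmpos : (0 : ℝ) < m := by rw [hmcast]; positivity
  have hNm : (0 : ℝ) < N * m := by positivity
  set y : ℝ := (k : ℝ) ^ (1 / ((N : ℝ) * m)) with hy
  have hy1 : 1 ≤ y := Real.one_le_rpow hk1.le (by positivity)
  have hlogy : log y = L / (N * m) := by
    rw [hy, Real.log_rpow hk0, hL]; ring
  set c := ⌈y⌉₊ with hcdef
  have hyc : y ≤ c := Nat.le_ceil y
  have hcy : (c : ℝ) ≤ 2 * y := by
    have := (Nat.ceil_lt_add_one (by linarith : (0 : ℝ) ≤ y)).le
    linarith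
  have hlogc : 64 * ((m : ℝ) + n + 2) ≤ log c := by
    have h1 : log y ≤ log c := log_le_log (by linarith) hyc
    refine le_trans ?_ h1
    rw [hlogy, le_div_iff₀ hNm, hmcast]
    have h2 : 64 * (N * ((n : ℝ) + 1) + n + 2) * (N * (N * ((n : ℝ) + 1))) ≤
        (128 * N ^ 2 * (N + 1)) * ((n : ℝ) + 1) ^ 2 := by
      have h3 : N * ((n : ℝ) + 1) + n + 2 ≤ 2 * ((N + 1) * ((n : ℝ) + 1)) := by nlinarith
      calc 64 * (N * ((n : ℝ) + 1) + n + 2) * (N * (N * ((n : ℝ) + 1)))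
          ≤ 64 * (2 * ((N + 1) * ((n : ℝ) + 1))) * (N * (N * ((n : ℝ) + 1))) := by
            gcongr
        _ = (128 * N ^ 2 * (N + 1)) * ((n : ℝ) + 1) ^ 2 := by ring
    calc 64 * (N * ((n : ℝ) + 1) + n + 2) * (N * (N * ((n : ℝ) + 1)))
        ≤ (128 * N ^ 2 * (N + 1)) * ((n : ℝ) + 1) ^ 2 := h2
      _ ≤ (128 * N ^ 2 * (N + 1)) * (δ * L) := by gcongr
      _ = (δ * (128 * N ^ 2 * (N + 1))) * L := by ring
      _ ≤ 1 * L := by gcongr
      _ = L := one_mul L
  have hkb : k ≤ (c ^ m) ^ N := by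
    have h1 : y ^ (m * N) = k := by
      rw [hy, ← Real.rpow_natCast, ← Real.rpow_mul hk0.le]
      have : 1 / ((N : ℝ) * m) * ((m * N : ℕ) : ℝ) = 1 := by
        push_cast
        field_simp
      rw [this, Real.rpow_one]
    have h2 : (k : ℝ) ≤ ((c : ℝ) ^ m) ^ N := by
      rw [← pow_mul, ← h1]
      exact pow_le_pow_left₀ (by linarith) hyc _
    exact_mod_cast h2
  obtain ⟨P, hP0, hPn⟩ := exists_params k N m n c hkb hlogc
  obtain ⟨M, h1, h2, h3, h4⟩ := exists_BP P (by omega) n hPn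
  refine ⟨M, h1, h2, h3, ?_⟩
  set E := (m + 1 + n) * (2 * N + 1) with hE
  have hEcast : (E : ℝ) = ((N + 1) * (2 * N + 1)) * ((n : ℝ) + 1) := by
    rw [hE, hm]; push_cast; ring
  -- size
  have h5 : (M.size : ℝ) ≤ (4 * (N : ℝ) + 1) ^ n * ((k : ℝ) ^ 2 * (c : ℝ) ^ E) + 3 := by
    have h6 : M.size ≤ (4 * N + 1) ^ n * (k ^ 2 * c ^ E) + 3 := by
      rw [hP0, ← pow_mul] at h4
      exact h4
    exact_mod_cast h6
  have hcE : (c : ℝ) ^ E ≤ exp E * y ^ E := by
    calc (c : ℝ) ^ E ≤ (2 * y) ^ E := pow_le_pow_left₀ (Nat.cast_nonneg c) hcy _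
      _ = 2 ^ E * y ^ E := mul_pow _ _ _
      _ ≤ exp E * y ^ E := by
        have : (2 : ℝ) ^ E ≤ exp E := by
          have h7 : (2 : ℝ) ≤ exp 1 := by
            have := Real.add_one_le_exp (1 : ℝ); linarith
          calc (2 : ℝ) ^ E ≤ (exp 1) ^ E := pow_le_pow_left₀ (by norm_num) h7 _
            _ = exp E := by rw [← Real.exp_nat_mul, mul_one]
        gcongr
  have hyE : y ^ E = (k : ℝ) ^ (2 + 3 / (N : ℝ) + 1 / (N : ℝ) ^ 2) := by
    rw [hy, ← Real.rpow_natCast, ← Real.rpow_mul hk0.le, hEcast, hmcast]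
    congr 1
    have : ((n : ℝ) + 1) ≠ 0 := by positivity
    field_simp
    ring
  have hfirst : (4 * (N : ℝ) + 1) ^ n ≤ exp ((4 * N + 1) * ((n : ℝ) + 1)) := by
    have h7 : (4 * (N : ℝ) + 1) ≤ exp (4 * N + 1) := by
      have := Real.add_one_le_exp (4 * (N : ℝ) + 1); linarith
    calc (4 * (N : ℝ) + 1) ^ n ≤ (exp (4 * N + 1)) ^ n := pow_le_pow_left₀ (by positivity) h7 _
      _ = exp (n * (4 * N + 1)) := by rw [← Real.exp_nat_mul]
      _ ≤ exp ((4 * N + 1) * ((n : ℝ) + 1)) := by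
        apply exp_le_exp.2
        nlinarith
  set Z : ℝ := exp ((4 * N + 1) * ((n : ℝ) + 1)) * ((k : ℝ) ^ 2 * (exp E * y ^ E)) with hZ
  have hZ1 : 1 ≤ Z := by
    have e1 : 1 ≤ exp ((4 * N + 1) * ((n : ℝ) + 1)) := Real.one_le_exp (by positivity)
    have e2 : 1 ≤ exp (E : ℝ) := Real.one_le_exp (by positivity)
    have e3 : 1 ≤ (k : ℝ) ^ 2 := one_le_pow₀ hk1.le
    have e4 : 1 ≤ y ^ E := one_le_pow₀ hy1
    have e5 : 1 ≤ exp (E : ℝ) * y ^ E := one_le_mul_of_one_le_of_one_le e2 e4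
    have e6 : 1 ≤ (k : ℝ) ^ 2 * (exp (E : ℝ) * y ^ E) := one_le_mul_of_one_le_of_one_le e3 e5
    exact one_le_mul_of_one_le_of_one_le e1 e6
  have h6 : (M.size : ℝ) ≤ 4 * Z := by
    have h7 : (4 * (N : ℝ) + 1) ^ n * ((k : ℝ) ^ 2 * (c : ℝ) ^ E) ≤ Z := by
      rw [hZ]
      gcongr
    linarith
  have h7 : 4 * Z ≤ exp (K0 * ((n : ℝ) + 1)) * (k : ℝ) ^ (4 + 3 / (N : ℝ) + 1 / (N : ℝ) ^ 2) := by
    have e1 : (4 : ℝ) ≤ exp (2 * ((n : ℝ) + 1)) := by
      have e2 : (2 : ℝ) ≤ exp 1 := by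
        have := Real.add_one_le_exp (1 : ℝ); linarith
      have e3 : (4 : ℝ) ≤ exp 2 := by
        have : exp 2 = exp 1 * exp 1 := by rw [← Real.exp_add]; norm_num
        rw [this]; nlinarith
      refine e3.trans (exp_le_exp.2 (by linarith))
    have e4 : (k : ℝ) ^ 2 * y ^ E = (k : ℝ) ^ (4 + 3 / (N : ℝ) + 1 / (N : ℝ) ^ 2) := by
      rw [hyE, ← Real.rpow_natCast (k : ℝ) 2, ← Real.rpow_add hk0]
      congr 1
      push_cast
      ring
    calc 4 * Z ≤ exp (2 * ((n : ℝ) + 1)) * Z := by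
          apply mul_le_mul_of_nonneg_right e1 (by linarith)
      _ = (exp (2 * ((n : ℝ) + 1)) * exp ((4 * N + 1) * ((n : ℝ) + 1)) * exp E) *
            ((k : ℝ) ^ 2 * y ^ E) := by rw [hZ]; ring
      _ = exp (K0 * ((n : ℝ) + 1)) * (k : ℝ) ^ (4 + 3 / (N : ℝ) + 1 / (N : ℝ) ^ 2) := by
          rw [e4, ← Real.exp_add, ← Real.exp_add, hEcast]
          congr 2
          rw [hK0]; ring
  have h8 : exp (K0 * ((n : ℝ) + 1)) ≤ (k : ℝ) ^ (ε / 2) := by
    rw [Real.rpow_def_of_pos hk0]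
    apply exp_le_exp.2
    have e1 : (n : ℝ) + 1 ≤ ((n : ℝ) + 1) ^ 2 := by nlinarith
    calc K0 * ((n : ℝ) + 1) ≤ K0 * (δ * L) := by
          apply mul_le_mul_of_nonneg_left (e1.trans hsq) hK0pos.le
      _ = (δ * K0) * L := by ring
      _ ≤ (ε / 2) * L := by gcongr
      _ = L * (ε / 2) := by ring
  have h9 : 3 / (N : ℝ) + 1 / (N : ℝ) ^ 2 ≤ ε / 2 := by
    have e1 : 1 / (N : ℝ) ^ 2 ≤ 1 / (N : ℝ) := by
      apply one_div_le_one_div_of_le hN0
      nlinarith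
    have e2 : 3 / (N : ℝ) + 1 / (N : ℝ) = 4 / (N : ℝ) := by ring
    linarith
  calc (M.size : ℝ) ≤ 4 * Z := h6
    _ ≤ exp (K0 * ((n : ℝ) + 1)) * (k : ℝ) ^ (4 + 3 / (N : ℝ) + 1 / (N : ℝ) ^ 2) := h7
    _ ≤ (k : ℝ) ^ (ε / 2) * (k : ℝ) ^ (4 + ε / 2) := by
        have e1 : (k : ℝ) ^ (4 + 3 / (N : ℝ) + 1 / (N : ℝ) ^ 2) ≤ (k : ℝ) ^ (4 + ε / 2) :=
          Real.rpow_le_rpow_of_exponent_le hk1.le (by linarith)
        have e2 : (0 : ℝ) ≤ (k : ℝ) ^ (4 + 3 / (N : ℝ) + 1 / (N : ℝ) ^ 2) := by positivity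
        have e3 : (0 : ℝ) ≤ (k : ℝ) ^ (ε / 2) := by positivity
        exact mul_le_mul h8 e1 e2 e3
    _ = (k : ℝ) ^ (4 + ε) := by
        rw [← Real.rpow_add hk0]
        congr 1
        ring

end Pool.Agent.H554R2.Thrifty
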