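import Mathlib

/-!
# Codes with large Hamming distance (Gilbert-Varshamov)
-/

set_option autoImplicit false

namespace Pool.Agent.H554R2.Thrifty

open Finset

theorem card_ball {ι : Type} [Fintype ι] [DecidableEq ι] {L e : ℕ} (hL : 1 ≤ L)
    (x : ι → Fin L) :
    (univ.filter (fun z : ι → Fin L => hammingDist x z < e)).card ≤
      2 ^ Fintype.card ι * L ^ e := by
  classical
  have hsub : univ.filter (fun z : ι → Fin L => hammingDist x z < e) ⊆
      ((univ : Finset ι).powerset.filter (fun I => I.card ≤ e)).biUnion
        (fun I => Fintype.piFinset (fun j => if j ∈ I then (univ : Finset (Fin L)) else {x j})) := by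
    intro z hz
    rw [mem_filter] at hz
    rw [mem_biUnion]
    refine ⟨univ.filter (fun j => x j ≠ z j), ?_, ?_⟩
    · rw [mem_filter]
      refine ⟨by simp, ?_⟩
      exact hz.2.le
    · rw [Fintype.mem_piFinset]
      intro j
      by_cases h : x j = z j
      · simp [h]
      · simp [h]
  refine (card_le_card hsub).trans ?_
  refine (card_biUnion_le_card_mul _ _ (L ^ e) ?_).trans ?_
  · intro I hI
    rw [mem_filter] at hI
    rw [Fintype.card_piFinset]
    have : ∀ j : ι, (if j ∈ I then (univ : Finset (Fin L)) else {x j}).card =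
        if j ∈ I then L else 1 := by
      intro j
      split_ifs <;> simp
    rw [prod_congr rfl (fun j _ => this j), prod_ite_mem, univ_inter, prod_const]
    exact Nat.pow_le_pow_right hL hI.2
  · apply Nat.mul_le_mul_right
    refine (card_filter_le _ _).trans ?_
    rw [card_powerset, card_univ]

theorem exists_code (g e L : ℕ) (hg : 2 ≤ g) (he : 1 ≤ e) (hL : 2 ^ g ≤ L) :
    ∃ C : Finset (Fin (g * e) → Fin L), L ^ ((g - 2) * e) ≤ C.card ∧
      ∀ x ∈ C, ∀ y ∈ C, x ≠ y → e ≤ hammingDist x y := by
  classical
  have hL1 : 1 ≤ L := le_trans (Nat.one_le_two_pow) hL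
  set S : Finset (Finset (Fin (g * e) → Fin L)) :=
    (univ : Finset (Finset (Fin (g * e) → Fin L))).filter
      (fun C => ∀ x ∈ C, ∀ y ∈ C, x ≠ y → e ≤ hammingDist x y) with hS
  have hne : S.Nonempty := ⟨∅, by simp [hS]⟩
  obtain ⟨C, hC, hmax⟩ := exists_max_image S card hne
  rw [hS, mem_filter] at hC
  refine ⟨C, ?_, hC.2⟩
  have hcov : (univ : Finset (Fin (g * e) → Fin L)) ⊆
      C.biUnion (fun x => univ.filter (fun z => hammingDist x z < e)) := by
    intro z _
    rw [mem_biUnion]
    by_contra hcon
    push Not at hcon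
    have hfar : ∀ x ∈ C, e ≤ hammingDist x z := by
      intro x hx
      have := hcon x hx
      simp only [mem_filter, mem_univ, true_and, not_lt] at this
      exact this
    have hz : z ∉ C := by
      intro hz
      have := hfar z hz
      rw [hammingDist_self] at this
      omega
    have hins : insert z C ∈ S := by
      rw [hS, mem_filter]
      refine ⟨mem_univ _, ?_⟩
      intro x hx y hy hxy
      rw [mem_insert] at hx hy
      rcases hx with rfl | hx
      · rcases hy with rfl | hy
        · exact absurd rfl hxy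
        · rw [hammingDist_comm]; exact hfar y hy
      · rcases hy with rfl | hy
        · exact hfar x hx
        · exact hC.2 x hx y hy hxy
    have := hmax _ hins
    rw [card_insert_of_notMem hz] at this
    omega
  have h1 : L ^ (g * e) ≤ C.card * (2 ^ (g * e) * L ^ e) := by
    have h2 := (card_le_card hcov).trans (card_biUnion_le_card_mul C _ (2 ^ (g * e) * L ^ e)
      (fun x _ => by
        have := card_ball (e := e) hL1 x
        rwa [Fintype.card_fin] at this))
    rwa [card_univ, Fintype.card_fun, Fintype.card_fin, Fintype.card_fin] at h2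
  have h2 : 2 ^ (g * e) ≤ L ^ e := by
    rw [pow_mul]
    exact Nat.pow_le_pow_left hL e
  have h3 : L ^ (g * e) ≤ C.card * (L ^ e * L ^ e) :=
    h1.trans (Nat.mul_le_mul_left _ (Nat.mul_le_mul_right _ h2))
  have h4 : L ^ (g * e) = L ^ ((g - 2) * e) * (L ^ e * L ^ e) := by
    rw [← pow_add, ← pow_add]
    congr 1
    obtain ⟨g', rfl⟩ : ∃ g', g = g' + 2 := ⟨g - 2, by omega⟩
    simp only [Nat.add_sub_cancel]
    ring
  rw [h4] at h3
  exact Nat.le_of_mul_le_mul_right h3 (by positivity)

end Pool.Agent.H554R2.Thrifty
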