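import Pool.Agent.H554R2.Thrifty.Defs

/-!
# Fragments of branching programs and their composition
-/

set_option autoImplicit false

namespace Pool.Agent.H554R2.Thrifty

/-- A fragment of a branching program, with a set `A` of labels at the entrance and at the exit. -/
structure Frag (V : Type) (k : ℕ) (A : Type) where
  /-- states -/
  Q : Type
  /-- queries -/
  query : Q → V
  /-- the entrance -/
  enter : A → Q ⊕ A → Prop
  /-- the edges -/
  step : Q → Fin k → Q ⊕ A → Prop

namespace Frag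

variable {V V' : Type} {k : ℕ} {A : Type}

/-- Paths in a fragment ending in the exit label `b`. -/
def Path (F : Frag V k A) (x : V → Fin k) (b : A) : F.Q ⊕ A → List F.Q → Prop
  | t, [] => t = Sum.inr b
  | t, q :: l => t = Sum.inl q ∧ ∃ t', F.step q (x (F.query q)) t' ∧ Path F x b t' l

/-- Runs of a fragment from the entrance label `a` to the exit label `b`. -/
def Run (F : Frag V k A) (x : V → Fin k) (a : A) (l : List F.Q) (b : A) : Prop :=
  ∃ t, F.enter a t ∧ F.Path x b t l

/-- The semantics of a fragment on an input. -/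
structure Good (F : Frag V k A) (x : V → Fin k) (T : V → Prop) (R : A → A → Prop) : Prop where
  sound : ∀ a l b, F.Run x a l b → R a b ∧ ∀ q ∈ l, T (F.query q)
  complete : ∀ a b, R a b → ∃ l, F.Run x a l b
  unique : ∀ a b l l', F.Run x a l b → F.Run x a l' b → l = l'

/-- Renaming of variables. -/
def mapVar (g : V → V') (F : Frag V k A) : Frag V' k A where
  Q := F.Q
  query := fun q => g (F.query q)
  enter := F.enter
  step := F.step

theorem path_mapVar (g : V → V') (F : Frag V k A) (x : V' → Fin k) (b : A) :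
    ∀ (l : List F.Q) (t : F.Q ⊕ A), (mapVar g F).Path x b t l ↔ F.Path (fun v => x (g v)) b t l
  | [], t => Iff.rfl
  | q :: l, t => by
    constructor
    · rintro ⟨h, t', h1, h2⟩
      exact ⟨h, t', h1, (path_mapVar g F x b l t').1 h2⟩
    · rintro ⟨h, t', h1, h2⟩
      exact ⟨h, t', h1, (path_mapVar g F x b l t').2 h2⟩

theorem run_mapVar (g : V → V') (F : Frag V k A) (x : V' → Fin k) (a b : A) (l : List F.Q) :
    (mapVar g F).Run x a l b ↔ F.Run (fun v => x (g v)) a l b := by
  constructor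
  · rintro ⟨t, h1, h2⟩
    exact ⟨t, h1, (path_mapVar g F x b l t).1 h2⟩
  · rintro ⟨t, h1, h2⟩
    exact ⟨t, h1, (path_mapVar g F x b l t).2 h2⟩

theorem Good.mapVar {g : V → V'} {F : Frag V k A} {x : V' → Fin k} {T : V → Prop}
    {T' : V' → Prop} {R : A → A → Prop} (h : F.Good (fun v => x (g v)) T R)
    (hT : ∀ v, T v → T' (g v)) : (mapVar g F).Good x T' R where
  sound := by
    intro a l b hr
    obtain ⟨h1, h2⟩ := h.sound a l b ((run_mapVar g F x a b l).1 hr)
    exact ⟨h1, fun q hq => hT _ (h2 q hq)⟩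
  complete := by
    intro a b hR
    obtain ⟨l, hl⟩ := h.complete a b hR
    exact ⟨l, (run_mapVar g F x a b l).2 hl⟩
  unique := by
    intro a b l l' h1 h2
    exact h.unique a b l l' ((run_mapVar g F x a b l).1 h1) ((run_mapVar g F x a b l').1 h2)

/-- Transfer of a set of targets of `F` to the composition of `F` and `G`. -/
def lift (F G : Frag V k A) (r : F.Q ⊕ A → Prop) : (F.Q ⊕ G.Q) ⊕ A → Prop
  | Sum.inl (Sum.inl q) => r (Sum.inl q)
  | Sum.inl (Sum.inr q) => ∃ b, r (Sum.inr b) ∧ G.enter b (Sum.inl q)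
  | Sum.inr c => ∃ b, r (Sum.inr b) ∧ G.enter b (Sum.inr c)

/-- Transfer of a set of targets of `G` to the composition of `F` and `G`. -/
def liftR (F G : Frag V k A) (r : G.Q ⊕ A → Prop) : (F.Q ⊕ G.Q) ⊕ A → Prop
  | Sum.inl (Sum.inl _) => False
  | Sum.inl (Sum.inr q) => r (Sum.inl q)
  | Sum.inr c => r (Sum.inr c)

/-- Sequential composition. -/
def comp (F G : Frag V k A) : Frag V k A where
  Q := F.Q ⊕ G.Q
  query := Sum.elim F.query G.query
  enter := fun a => lift F G (F.enter a)
  step := fun q c => match q with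
    | Sum.inl q => lift F G (F.step q c)
    | Sum.inr q => liftR F G (G.step q c)

theorem path_comp_right (F G : Frag V k A) (x : V → Fin k) (c : A) :
    ∀ (l : List (F.Q ⊕ G.Q)) (r : G.Q ⊕ A → Prop),
      (∃ t, liftR F G r t ∧ (comp F G).Path x c t l) ↔
        ∃ l2 : List G.Q, l = l2.map Sum.inr ∧ ∃ t, r t ∧ G.Path x c t l2
  | [], r => by
    constructor
    · rintro ⟨t, h1, h2⟩
      have h2' : t = Sum.inr c := h2
      subst h2'
      exact ⟨[], rfl, Sum.inr c, h1, rfl⟩
    · rintro ⟨l2, h, t, h1, h2⟩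
      have : l2 = [] := by simpa using h.symm
      subst this
      have h2' : t = Sum.inr c := h2
      subst h2'
      exact ⟨Sum.inr c, h1, rfl⟩
  | Sum.inl q :: l, r => by
    constructor
    · rintro ⟨t, h1, h2, -⟩
      subst h2
      exact absurd h1 (by simp [liftR])
    · rintro ⟨l2, h, -⟩
      cases l2 <;> simp at h
  | Sum.inr q :: l, r => by
    constructor
    · rintro ⟨t, h1, h2, t', h3, h4⟩
      subst h2
      obtain ⟨l2, hl, t2, h5, h6⟩ :=
        (path_comp_right F G x c l (G.step q (x (G.query q)))).1 ⟨t', h3, h4⟩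
      exact ⟨q :: l2, by simp [hl], Sum.inl q, h1, rfl, t2, h5, h6⟩
    · rintro ⟨l2, h, t, h1, h2⟩
      cases l2 with
      | nil => simp at h
      | cons q' l2 =>
        simp only [List.map_cons, List.cons.injEq, Sum.inr.injEq] at h
        obtain ⟨rfl, hl⟩ := h
        obtain ⟨h2, t', h3, h4⟩ := h2
        subst h2
        obtain ⟨t2, h5, h6⟩ :=
          (path_comp_right F G x c l (G.step q (x (G.query q)))).2 ⟨l2, hl, t', h3, h4⟩
        exact ⟨Sum.inl (Sum.inr q), h1, rfl, t2, h5, h6⟩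

theorem path_comp_left (F G : Frag V k A) (x : V → Fin k) (c : A) :
    ∀ (l : List (F.Q ⊕ G.Q)) (r : F.Q ⊕ A → Prop),
      (∃ t, lift F G r t ∧ (comp F G).Path x c t l) ↔
        ∃ (b : A) (l1 : List F.Q) (l2 : List G.Q), l = l1.map Sum.inl ++ l2.map Sum.inr ∧
          (∃ t, r t ∧ F.Path x b t l1) ∧ G.Run x b l2 c
  | [], r => by
    constructor
    · rintro ⟨t, h1, h2⟩
      have h2' : t = Sum.inr c := h2
      subst h2'
      obtain ⟨b, h3, h4⟩ := h1
      exact ⟨b, [], [], rfl, ⟨Sum.inr b, h3, rfl⟩, Sum.inr c, h4, rfl⟩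
    · rintro ⟨b, l1, l2, h, ⟨t, h1, h2⟩, t', h3, h4⟩
      have h5 : l1 = [] ∧ l2 = [] := by simpa using h.symm
      obtain ⟨rfl, rfl⟩ := h5
      have h2' : t = Sum.inr b := h2
      have h4' : t' = Sum.inr c := h4
      subst h2' h4'
      exact ⟨Sum.inr c, ⟨b, h1, h3⟩, rfl⟩
  | Sum.inl q :: l, r => by
    constructor
    · rintro ⟨t, h1, h2, t', h3, h4⟩
      subst h2
      obtain ⟨b, l1, l2, hl, ⟨t2, h5, h6⟩, h7⟩ :=
        (path_comp_left F G x c l (F.step q (x (F.query q)))).1 ⟨t', h3, h4⟩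
      exact ⟨b, q :: l1, l2, by simp [hl], ⟨Sum.inl q, h1, rfl, t2, h5, h6⟩, h7⟩
    · rintro ⟨b, l1, l2, h, ⟨t, h1, h2⟩, h7⟩
      cases l1 with
      | nil => cases l2 <;> simp at h
      | cons q' l1 =>
        simp only [List.map_cons, List.cons_append, List.cons.injEq, Sum.inl.injEq] at h
        obtain ⟨rfl, hl⟩ := h
        obtain ⟨h2, t', h3, h4⟩ := h2
        subst h2
        obtain ⟨t2, h5, h6⟩ :=
          (path_comp_left F G x c l (F.step q (x (F.query q)))).2
            ⟨b, l1, l2, hl, ⟨t', h3, h4⟩, h7⟩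
        exact ⟨Sum.inl (Sum.inl q), h1, rfl, t2, h5, h6⟩
  | Sum.inr q :: l, r => by
    constructor
    · rintro ⟨t, h1, h2, t', h3, h4⟩
      subst h2
      obtain ⟨b, h5, h6⟩ := h1
      obtain ⟨l2, hl, t2, h7, h8⟩ :=
        (path_comp_right F G x c l (G.step q (x (G.query q)))).1 ⟨t', h3, h4⟩
      exact ⟨b, [], q :: l2, by simp [hl], ⟨Sum.inr b, h5, rfl⟩, Sum.inl q, h6, rfl, t2, h7, h8⟩
    · rintro ⟨b, l1, l2, h, ⟨t, h1, h2⟩, h7⟩
      cases l1 with
      | cons q' l1 => simp at h
      | nil =>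
        have h2' : t = Sum.inr b := h2
        subst h2'
        cases l2 with
        | nil => simp at h
        | cons q' l2 =>
          simp only [List.map_nil, List.map_cons, List.nil_append, List.cons.injEq,
            Sum.inr.injEq] at h
          obtain ⟨rfl, hl⟩ := h
          obtain ⟨t3, h8, h9, t4, h10, h11⟩ := h7
          subst h9
          obtain ⟨t2, h5, h6⟩ :=
            (path_comp_right F G x c l (G.step q (x (G.query q)))).2 ⟨l2, hl, t4, h10, h11⟩
          exact ⟨Sum.inl (Sum.inr q), ⟨b, h1, h8⟩, rfl, t2, h5, h6⟩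

theorem run_comp (F G : Frag V k A) (x : V → Fin k) (a c : A) (l : List (F.Q ⊕ G.Q)) :
    (comp F G).Run x a l c ↔
      ∃ (b : A) (l1 : List F.Q) (l2 : List G.Q), l = l1.map Sum.inl ++ l2.map Sum.inr ∧
          F.Run x a l1 b ∧ G.Run x b l2 c :=
  path_comp_left F G x c l (F.enter a)

/-- The fragment without states, which passes the labels with the property `P`. -/
def idOn (V : Type) (k : ℕ) {A : Type} (P : A → Prop) : Frag V k A where
  Q := Empty
  query := fun q => q.elim
  enter := fun a t => t = Sum.inr a ∧ P a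
  step := fun q => q.elim

theorem run_idOn (P : A → Prop) (x : V → Fin k) (a b : A) (l : List (idOn V k P).Q) :
    (idOn V k P).Run x a l b ↔ l = [] ∧ a = b ∧ P a := by
  constructor
  · rintro ⟨t, ⟨h1, h1'⟩, h2⟩
    cases l with
    | nil =>
      have h2' : t = Sum.inr b := h2
      rw [h1] at h2'
      exact ⟨rfl, Sum.inr.inj h2', h1'⟩
    | cons q l => exact q.elim
  · rintro ⟨rfl, rfl, h⟩
    exact ⟨Sum.inr a, ⟨rfl, h⟩, rfl⟩

/-- If the middle label is determined, the composition of good fragments is good. -/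
theorem Good.comp {F G : Frag V k A} {x : V → Fin k} {T : V → Prop} {R S U : A → A → Prop}
    (hF : F.Good x T R) (hG : G.Good x T S)
    (h1 : ∀ a b c, R a b → S b c → U a c) (h2 : ∀ a c, U a c → ∃ b, R a b ∧ S b c)
    (h3 : ∀ a b b' c, R a b → S b c → R a b' → S b' c → b = b') :
    (comp F G).Good x T U where
  sound := by
    intro a l c hr
    obtain ⟨b, l1, l2, rfl, hr1, hr2⟩ := (run_comp F G x a c l).1 hr
    obtain ⟨h4, h5⟩ := hF.sound a l1 b hr1
    obtain ⟨h6, h7⟩ := hG.sound b l2 c hr2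
    refine ⟨h1 a b c h4 h6, ?_⟩
    intro q hq
    rcases List.mem_append.1 hq with hq | hq
    · obtain ⟨q', hq', rfl⟩ := List.mem_map.1 hq
      exact h5 q' hq'
    · obtain ⟨q', hq', rfl⟩ := List.mem_map.1 hq
      exact h7 q' hq'
  complete := by
    intro a c hU
    obtain ⟨b, hR, hS⟩ := h2 a c hU
    obtain ⟨l1, hl1⟩ := hF.complete a b hR
    obtain ⟨l2, hl2⟩ := hG.complete b c hS
    exact ⟨_, (run_comp F G x a c _).2 ⟨b, l1, l2, rfl, hl1, hl2⟩⟩
  unique := by
    intro a c l l' hl hl'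
    obtain ⟨b, l1, l2, rfl, hr1, hr2⟩ := (run_comp F G x a c l).1 hl
    obtain ⟨b', l1', l2', rfl, hr1', hr2'⟩ := (run_comp F G x a c l').1 hl'
    have hb : b = b' := h3 a b b' c (hF.sound _ _ _ hr1).1 (hG.sound _ _ _ hr2).1
      (hF.sound _ _ _ hr1').1 (hG.sound _ _ _ hr2').1
    subst hb
    rw [hF.unique _ _ _ _ hr1 hr1', hG.unique _ _ _ _ hr2 hr2']

end Frag

end Pool.Agent.H554R2.Thrifty
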