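import Pool.Agent.H554R2.Thrifty.Defs

/-!
# The lower bound for deterministic thrifty programs
-/

set_option autoImplicit false

namespace Pool.Agent.H554R2.Thrifty

open Finset

/-- Nodes of the tree. -/
def Node : ℕ → Type
  | 0 => Unit
  | n + 1 => Option (Bool × Node n)

noncomputable instance instDecNode (n : ℕ) : DecidableEq (Node n) := Classical.decEq _

theorem finite_node : ∀ n, Finite (Node n)
  | 0 => (inferInstance : Finite Unit)
  | n + 1 => by
    have := finite_node n
    exact (inferInstance : Finite (Option (Bool × Node n)))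

noncomputable instance instFintypeNode (n : ℕ) : Fintype (Node n) :=
  @Fintype.ofFinite _ (finite_node n)

/-- The root. -/
def rootN : (n : ℕ) → Node n
  | 0 => ()
  | _ + 1 => none

/-- The node of a variable. -/
def nodeOf {k : ℕ} : (n : ℕ) → Var k n → Node n
  | 0, _ => ()
  | _ + 1, Sum.inl _ => none
  | n + 1, Sum.inr (s, v) => some (s, nodeOf n v)

/-- A node of a subtree. -/
def up {n : ℕ} (s : Bool) (c : Node n) : Node (n + 1) := some (s, c)

theorem up_inj {n : ℕ} {s s' : Bool} {c c' : Node n} (h : up s c = up s' c') : s = s' ∧ c = c' := by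
  have h' : (some (s, c) : Option (Bool × Node n)) = some (s', c') := h
  simpa using h'

theorem up_ne_root {n : ℕ} (s : Bool) (c : Node n) : up s c ≠ rootN (n + 1) := by
  intro h
  have h' : (some (s, c) : Option (Bool × Node n)) = none := h
  simp at h'

theorem node_cases {n : ℕ} (i : Node (n + 1)) : i = rootN (n + 1) ∨ ∃ s c, i = up s c := by
  cases i with
  | none => exact Or.inl rfl
  | some p => exact Or.inr ⟨p.1, p.2, rfl⟩

/-- Children of a node. -/
noncomputable def children : (n : ℕ) → Node n → Finset (Node n)
  | 0, _ => ∅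
  | n + 1, none => {up false (rootN n), up true (rootN n)}
  | n + 1, some (s, c) => (children n c).image (up s)

theorem children_root (n : ℕ) :
    children (n + 1) (rootN (n + 1)) = {up false (rootN n), up true (rootN n)} := rfl

theorem children_up {n : ℕ} (s : Bool) (c : Node n) :
    children (n + 1) (up s c) = (children n c).image (up s) := rfl

theorem not_mem_children : ∀ (n : ℕ) (i : Node n), i ∉ children n i
  | 0, _ => by simp [children]
  | n + 1, i => by
    rcases node_cases i with rfl | ⟨s, c, rfl⟩
    · rw [children_root]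
      simp only [mem_insert, mem_singleton, not_or]
      exact ⟨fun h => up_ne_root _ _ h.symm, fun h => up_ne_root _ _ h.symm⟩
    · rw [children_up, mem_image]
      rintro ⟨c', hc', h⟩
      obtain ⟨-, rfl⟩ := up_inj h
      exact not_mem_children n c' hc'

/-- The input with constant tables. -/
def inp {k n : ℕ} (v : Node n → Fin k) : Input k n := fun u => v (nodeOf n u)

theorem value_inp {k : ℕ} : ∀ (n : ℕ) (v : Node n → Fin k), value n (inp v) = v (rootN n)
  | 0, _ => rfl
  | _ + 1, _ => rfl

theorem thrifty_agree {k : ℕ} : ∀ (n : ℕ) (v w : Node n → Fin k) (u : Var k n),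
    ThriftyVar n (inp v) u → ThriftyVar n (inp w) u →
      ∀ c ∈ children n (nodeOf n u), v c = w c
  | 0, v, w, u => by
    intro _ _ c hc
    exact absurd hc (by simp [children])
  | n + 1, v, w, Sum.inl p => by
    intro h1 h2 c hc
    have e1 : p = (value n (sub (inp v) false), value n (sub (inp v) true)) := h1
    have e2 : p = (value n (sub (inp w) false), value n (sub (inp w) true)) := h2
    have e3 : ∀ (v : Node (n + 1) → Fin k) (s : Bool), value n (sub (inp v) s) =
        v (up s (rootN n)) := fun v s => value_inp n (fun c => v (up s c))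
    rw [e3, e3] at e1 e2
    have e4 := e1.symm.trans e2
    have hc' : c ∈ ({up false (rootN n), up true (rootN n)} : Finset (Node (n + 1))) := hc
    rw [mem_insert, mem_singleton] at hc'
    rcases hc' with rfl | rfl
    · exact congrArg Prod.fst e4
    · exact congrArg Prod.snd e4
  | n + 1, v, w, Sum.inr (s, u) => by
    intro h1 h2 c hc
    have hc' : c ∈ (children n (nodeOf n u)).image (up s) := hc
    obtain ⟨c', hc2, rfl⟩ := mem_image.1 hc'
    exact thrifty_agree n (fun c => v (up s c)) (fun c => w (up s c)) u h1 h2 c' hc2

/-- Restriction of a set of nodes to a subtree. -/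
noncomputable def restr {n : ℕ} (s : Bool) (L : Finset (Node (n + 1))) : Finset (Node n) :=
  univ.filter (fun c => up s c ∈ L)

theorem mem_restr {n : ℕ} {s : Bool} {L : Finset (Node (n + 1))} {c : Node n} :
    c ∈ restr s L ↔ up s c ∈ L := by simp [restr]

theorem card_restr {n : ℕ} (s : Bool) (L : Finset (Node (n + 1))) :
    (restr s L).card + (restr (!s) L).card ≤ L.card := by
  have h1 : ((restr s L).image (up s)).card = (restr s L).card :=
    card_image_of_injective _ (fun c c' h => (up_inj h).2)
  have h2 : ((restr (!s) L).image (up (!s))).card = (restr (!s) L).card :=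
    card_image_of_injective _ (fun c c' h => (up_inj h).2)
  rw [← h1, ← h2, ← card_union_of_disjoint]
  · apply card_le_card
    intro c hc
    rcases mem_union.1 hc with hc | hc
    · obtain ⟨c', hc', rfl⟩ := mem_image.1 hc
      exact mem_restr.1 hc'
    · obtain ⟨c', hc', rfl⟩ := mem_image.1 hc
      exact mem_restr.1 hc'
  · rw [disjoint_left]
    intro c hc hc2
    obtain ⟨c', -, rfl⟩ := mem_image.1 hc
    obtain ⟨c2, -, h⟩ := mem_image.1 hc2
    have := (up_inj h).1
    cases s <;> simp at this

/-- Every path from the root to a leaf meets `L`. -/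
def Blocked : (n : ℕ) → Finset (Node n) → Prop
  | 0, L => rootN 0 ∈ L
  | n + 1, L => rootN (n + 1) ∈ L ∨ ∀ s, Blocked n (restr s L)

theorem Blocked.mono : ∀ {n : ℕ} {L L' : Finset (Node n)}, L ⊆ L' → Blocked n L → Blocked n L'
  | 0, _, _, h, hb => h hb
  | n + 1, L, L', h, hb => by
    rcases hb with hb | hb
    · exact Or.inl (h hb)
    · exact Or.inr fun s => Blocked.mono (fun c hc => mem_restr.2 (h (mem_restr.1 hc))) (hb s)

theorem Blocked.nonempty : ∀ {n : ℕ} {L : Finset (Node n)}, Blocked n L → L.Nonempty
  | 0, _, hb => ⟨_, hb⟩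
  | n + 1, L, hb => by
    rcases hb with hb | hb
    · exact ⟨_, hb⟩
    · obtain ⟨c, hc⟩ := Blocked.nonempty (hb false)
      exact ⟨_, mem_restr.1 hc⟩

theorem blocked_of_root : ∀ {n : ℕ} {L : Finset (Node n)}, rootN n ∈ L → Blocked n L
  | 0, _, h => h
  | _ + 1, _, h => Or.inl h

theorem card_of_transition : ∀ (n : ℕ) (L L' : Finset (Node n)) (i : Node n),
    L.erase i ⊆ L' → children n i ⊆ L' → Blocked n L → ¬ Blocked n L' → n + 1 ≤ L.card
  | 0, L, _, _, _, _, hb, _ => by
    have : 0 < L.card := card_pos.2 hb.nonempty
    omega
  | n + 1, L, L', i, h1, h2, hb, hb' => by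
    have hroot' : rootN (n + 1) ∉ L' := fun h => hb' (Or.inl h)
    rcases node_cases i with rfl | ⟨s', c', rfl⟩
    · exfalso
      apply hb'
      refine Or.inr fun s => blocked_of_root (mem_restr.2 (h2 ?_))
      rw [children_root]
      cases s <;> simp
    · have hroot : rootN (n + 1) ∉ L := fun h =>
        hroot' (h1 (mem_erase.2 ⟨fun h' => up_ne_root _ _ h'.symm, h⟩))
      have hbs : ∀ s, Blocked n (restr s L) := by
        rcases hb with hb | hb
        · exact absurd hb hroot
        · exact hb
      have hne : ¬ Blocked n (restr s' L') := by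
        intro hs
        apply hb'
        refine Or.inr fun s => ?_
        by_cases hss : s = s'
        · subst hss; exact hs
        · refine (hbs s).mono ?_
          intro c hc
          refine mem_restr.2 (h1 (mem_erase.2 ⟨?_, mem_restr.1 hc⟩))
          intro h
          exact hss (up_inj h).1
      have h3 := card_of_transition n (restr s' L) (restr s' L') c' (by
          intro c hc
          obtain ⟨hc1, hc2⟩ := mem_erase.1 hc
          refine mem_restr.2 (h1 (mem_erase.2 ⟨?_, mem_restr.1 hc2⟩))
          intro h
          exact hc1 (up_inj h).2) (by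
          intro c hc
          refine mem_restr.2 (h2 ?_)
          rw [children_up]
          exact mem_image_of_mem _ hc) (hbs s') hne
      have h4 : 0 < (restr (!s') L).card := card_pos.2 (hbs (!s')).nonempty
      have h5 := card_restr s' L
      omega

/-- The set of live nodes of a word: nodes whose parent occurs before any occurrence of the
node itself. -/
noncomputable def live (n : ℕ) : List (Node n) → Finset (Node n)
  | [] => ∅
  | i :: y => children n i ∪ (live n y).erase i

theorem exists_cut (n : ℕ) : ∀ w : List (Node n), ¬ Blocked n (live n w) →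
    (∃ y, y <:+ w ∧ Blocked n (live n y)) → ∃ y, y <:+ w ∧ n + 1 ≤ (live n y).card
  | [], h, ⟨y, hy, hb⟩ => by
    have : y = [] := List.suffix_nil.1 hy
    subst this
    exact absurd hb h
  | i :: w, h, ⟨y, hy, hb⟩ => by
    by_cases hw : Blocked n (live n w)
    · refine ⟨w, List.suffix_cons _ _, ?_⟩
      exact card_of_transition n (live n w) (live n (i :: w)) i subset_union_right
        subset_union_left hw h
    · rcases List.suffix_cons_iff.1 hy with rfl | hy
      · exact absurd hb h
      · obtain ⟨z, hz, hz'⟩ := exists_cut n w hw ⟨y, hy, hb⟩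
        exact ⟨z, hz.trans (List.suffix_cons _ _), hz'⟩

theorem mem_live (n : ℕ) (c : Node n) : ∀ w : List (Node n), c ∈ live n w →
    ∃ u p z, w = u ++ p :: z ∧ c ∉ u ∧ c ∈ children n p
  | [], h => absurd h (by simp [live])
  | i :: w, h => by
    rcases mem_union.1 h with h | h
    · exact ⟨[], i, w, rfl, List.not_mem_nil, h⟩
    · obtain ⟨h1, h2⟩ := mem_erase.1 h
      obtain ⟨u, p, z, rfl, h3, h4⟩ := mem_live n c w h2
      refine ⟨i :: u, p, z, rfl, ?_, h4⟩
      rw [List.mem_cons]
      rintro (h | h)
      · exact h1 h
      · exact h3 h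

section BP

variable {k n : ℕ} (P : BP (Var k n) k)

/-- The node queried in a state. -/
def nd (q : P.State) : Node n := nodeOf n (P.query q)

theorem isPath_congr {V : Type} (P : BP V k) {x x' : V → Fin k} {r : Bool} :
    ∀ l : List P.State, (∀ s ∈ l, x (P.query s) = x' (P.query s)) → P.IsPath x l r →
      P.IsPath x' l r
  | [], _, h => h
  | [q], hx, h => by
    have h' : P.edge q (x (P.query q)) (Sum.inr r) := h
    rw [hx q List.mem_cons_self] at h'
    exact h'
  | q :: q' :: l, hx, h => by
    obtain ⟨h1, h2⟩ := h
    rw [hx q List.mem_cons_self] at h1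
    exact ⟨h1, isPath_congr P (q' :: l) (fun s hs => hx s (List.mem_cons_of_mem _ hs)) h2⟩

theorem prefix_of_agree {V : Type} (P : BP V k) (hdet : P.Deterministic) {x x' : V → Fin k}
    {r r' : Bool} (q : P.State) (z : List P.State) :
    ∀ (u l' : List P.State), (∀ s ∈ u, x (P.query s) = x' (P.query s)) →
      P.IsPath x (u ++ q :: z) r → P.IsPath x' l' r' → l'.head? = (u ++ q :: z).head? →
      ∃ z', l' = u ++ q :: z'
  | [], l', _, _, _, hh => by
    cases l' with
    | nil => simp at hh
    | cons p l' =>
      have : p = q := by simpa using hh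
      subst this
      exact ⟨l', rfl⟩
  | p :: u, l', hx, h, h', hh => by
    cases l' with
    | nil => simp at hh
    | cons p' l' =>
      have : p' = p := by simpa using hh
      subst this
      -- the next state on the first path
      obtain ⟨p2, w, hw⟩ : ∃ p2 w, u ++ q :: z = p2 :: w := by
        cases u with
        | nil => exact ⟨q, z, rfl⟩
        | cons p2 u => exact ⟨p2, u ++ q :: z, rfl⟩
      have h1 : P.edge p' (x (P.query p')) (Sum.inl p2) := by
        have h0 : P.IsPath x (p' :: (u ++ q :: z)) r := h
        rw [hw] at h0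
        exact h0.1
      have h2 : P.IsPath x (u ++ q :: z) r := by
        have h0 : P.IsPath x (p' :: (u ++ q :: z)) r := h
        rw [hw] at h0 ⊢
        exact h0.2
      rw [hx p' List.mem_cons_self] at h1
      cases l' with
      | nil =>
        have h3 : P.edge p' (x' (P.query p')) (Sum.inr r') := h'
        have := (hdet p' (x' (P.query p'))).unique h1 h3
        cases this
      | cons p3 l' =>
        obtain ⟨h3, h4⟩ := h'
        have h5 := (hdet p' (x' (P.query p'))).unique h1 h3
        have h6 : p2 = p3 := Sum.inl.inj h5
        obtain ⟨z', hz'⟩ := prefix_of_agree P hdet q z u (p3 :: l')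
          (fun s hs => hx s (List.mem_cons_of_mem _ hs)) h2 h4 (by rw [hw, h6]; rfl)
        exact ⟨z', by rw [hz']; rfl⟩

theorem card_agree (X : Finset (Node n → Fin k)) (K : Finset (Node n))
    (h : ∀ v ∈ X, ∀ w ∈ X, ∀ c ∈ K, v c = w c) :
    X.card * k ^ K.card ≤ k ^ Fintype.card (Node n) := by
  classical
  have h1 : X.card ≤ k ^ (Kᶜ).card := by
    have h2 : Fintype.card (((Kᶜ : Finset (Node n)) : Type) → Fin k) = k ^ (Kᶜ).card := by
      rw [Fintype.card_fun, Fintype.card_fin, Fintype.card_coe]
    rw [← h2, ← card_univ]
    refine card_le_card_of_injOn (fun v c => v c.1) (fun _ _ => mem_coe.2 (mem_univ _)) ?_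
    intro v hv w hw hvw
    funext c
    by_cases hc : c ∈ K
    · exact h v hv w hw c hc
    · exact congrFun hvw ⟨c, mem_compl.2 hc⟩
  calc X.card * k ^ K.card ≤ k ^ (Kᶜ).card * k ^ K.card := Nat.mul_le_mul_right _ h1
    _ = k ^ Fintype.card (Node n) := by
      rw [← pow_add, card_compl_add_card]

/-- The main counting lemma. -/
theorem count (hk : 1 ≤ k) (hdet : P.Deterministic) : ∀ (T : ℕ) (q : P.State)
    (X : Finset (Node n → Fin k)) (K : Finset (Node n)) (r : ℕ),
    (∀ v ∈ X, ∀ w ∈ X, ∀ c ∈ K, v c = w c) →
    (∀ v ∈ X, ∃ (l : List P.State) (res : Bool), l.length < T ∧ P.IsPath (inp v) (q :: l) res ∧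
      (∀ s ∈ q :: l, ThriftyVar n (inp v) (P.query s)) ∧
      r ≤ (live n ((q :: l).map (nd P)) \ K).card) →
    X.card * k ^ (K.card + r) ≤ k ^ Fintype.card (Node n)
  | 0, q, X, K, r, _, h => by
    have : X = ∅ := by
      rw [eq_empty_iff_forall_notMem]
      intro v hv
      obtain ⟨l, res, hl, -⟩ := h v hv
      omega
    subst this
    simp
  | T + 1, q, X, K, r, hK, h => by
    classical
    set i := nd P q with hi
    set Ch := children n i with hCh
    set K2 := insert i (K ∪ Ch) with hK2
    set r' := r - (Ch \ K).card with hr'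
    have hiCh : i ∉ Ch := not_mem_children n i
    have hKCh : (K ∪ Ch).card = K.card + (Ch \ K).card := by
      rw [← union_sdiff_self_eq_union, card_union_of_disjoint disjoint_sdiff]
    -- agreement on the children
    have hagree : ∀ v ∈ X, ∀ w ∈ X, ∀ c ∈ K ∪ Ch, v c = w c := by
      intro v hv w hw c hc
      rcases mem_union.1 hc with hc | hc
      · exact hK v hv w hw c hc
      · obtain ⟨l, res, -, -, ht, -⟩ := h v hv
        obtain ⟨l', res', -, -, ht', -⟩ := h w hw
        exact thrifty_agree n v w (P.query q) (ht q List.mem_cons_self)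
          (ht' q List.mem_cons_self) c hc
    -- the classes
    have hclass : ∀ a : Fin k, (X.filter (fun v => v i = a)).card * k ^ (K2.card + r') ≤
        k ^ Fintype.card (Node n) := by
      intro a
      set Xa := X.filter (fun v => v i = a) with hXa
      have hsub : ∀ v ∈ Xa, v ∈ X ∧ v i = a := fun v hv => mem_filter.1 hv
      have hagree2 : ∀ v ∈ Xa, ∀ w ∈ Xa, ∀ c ∈ K2, v c = w c := by
        intro v hv w hw c hc
        rcases mem_insert.1 hc with rfl | hc
        · rw [(hsub v hv).2, (hsub w hw).2]
        · exact hagree v (hsub v hv).1 w (hsub w hw).1 c hc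
      obtain ⟨t, ht, htu⟩ := hdet q a
      cases t with
      | inr res0 =>
        rcases Xa.eq_empty_or_nonempty with he | ⟨v, hv⟩
        · rw [he]; simp
        · obtain ⟨l, res, -, hp, -, hlive⟩ := h v (hsub v hv).1
          have hans : inp v (P.query q) = a := (hsub v hv).2
          have hlnil : l = [] := by
            cases l with
            | nil => rfl
            | cons q' l =>
              have h1 : P.edge q (inp v (P.query q)) (Sum.inl q') := hp.1
              rw [hans] at h1
              have := htu _ h1
              cases this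
          subst hlnil
          have h2 : live n ([q].map (nd P)) = Ch := by
            simp [live, hCh, hi]
          rw [h2] at hlive
          have h3 : r' = 0 := by omega
          rw [h3, add_zero]
          exact card_agree Xa K2 hagree2
      | inl q' =>
        refine count hk hdet T q' Xa K2 r' hagree2 ?_
        intro v hv
        obtain ⟨l, res, hlen, hp, hth, hlive⟩ := h v (hsub v hv).1
        have hans : inp v (P.query q) = a := (hsub v hv).2
        cases l with
        | nil =>
          have h1 : P.edge q (inp v (P.query q)) (Sum.inr res) := hp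
          rw [hans] at h1
          have := htu _ h1
          cases this
        | cons q2 l =>
          have h1 : P.edge q (inp v (P.query q)) (Sum.inl q2) := hp.1
          rw [hans] at h1
          have h2 : q2 = q' := Sum.inl.inj (htu _ h1)
          subst h2
          refine ⟨l, res, by simp only [List.length_cons] at hlen; omega, hp.2,
            fun s hs => hth s (List.mem_cons_of_mem _ hs), ?_⟩
          have h3 : live n ((q :: q2 :: l).map (nd P)) =
              Ch ∪ (live n ((q2 :: l).map (nd P))).erase i := rfl
          have h4 : live n ((q :: q2 :: l).map (nd P)) \ K ⊆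
              (Ch \ K) ∪ (live n ((q2 :: l).map (nd P)) \ K2) := by
            rw [h3]
            intro c hc
            simp only [mem_sdiff, mem_union, mem_erase, hK2, mem_insert] at hc ⊢
            tauto
          have h5 := (card_le_card h4).trans (card_union_le _ _)
          omega
    rcases X.eq_empty_or_nonempty with he | ⟨v0, hv0⟩
    · rw [he]; simp
    · by_cases hiK : i ∈ K
      · have hXeq : X = X.filter (fun v => v i = v0 i) := by
          ext v
          rw [mem_filter]
          exact ⟨fun hv => ⟨hv, hK v hv v0 hv0 i hiK⟩, fun hv => hv.1⟩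
        have h1 := hclass (v0 i)
        rw [← hXeq] at h1
        have h2 : K2.card = K.card + (Ch \ K).card := by
          rw [hK2, insert_eq_of_mem (mem_union_left _ hiK), hKCh]
        refine le_trans (Nat.mul_le_mul_left _ (Nat.pow_le_pow_right hk ?_)) h1
        omega
      · have h2 : K2.card = K.card + (Ch \ K).card + 1 := by
          rw [hK2, card_insert_of_notMem, hKCh]
          rw [mem_union, not_or]
          exact ⟨hiK, hiCh⟩
        have hsum : X.card = ∑ a : Fin k, (X.filter (fun v => v i = a)).card :=
          card_eq_sum_card_fiberwise (fun v _ => mem_coe.2 (mem_univ _))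
        have h3 : X.card * k ^ (K2.card + r') ≤ k * k ^ Fintype.card (Node n) := by
          rw [hsum, sum_mul]
          calc ∑ a : Fin k, (X.filter (fun v => v i = a)).card * k ^ (K2.card + r')
              ≤ ∑ _a : Fin k, k ^ Fintype.card (Node n) := sum_le_sum fun a _ => hclass a
            _ = k * k ^ Fintype.card (Node n) := by simp
        have h4 : X.card * k ^ (K.card + r) * k ≤ k * k ^ Fintype.card (Node n) := by
          refine le_trans ?_ h3
          rw [mul_assoc, ← pow_succ]
          exact Nat.mul_le_mul_left _ (Nat.pow_le_pow_right hk (by omega))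
        rw [mul_comm k (k ^ Fintype.card (Node n))] at h4
        exact Nat.le_of_mul_le_mul_right h4 hk

theorem root_mem (hk : 2 ≤ k) (hsol : P.Solves (BT k n)) (v : Node n → Fin k)
    (l : List P.State) (r : Bool) (hl : P.IsComp (inp v) l r) : rootN n ∈ l.map (nd P) := by
  classical
  by_contra hroot
  set a : Fin k := if (v (rootN n)).val = 0 then ⟨1, by omega⟩ else ⟨0, by omega⟩ with ha
  set v' := Function.update v (rootN n) a with hv'
  have hx : ∀ s ∈ l, inp v (P.query s) = inp v' (P.query s) := by
    intro s hs
    have : nodeOf n (P.query s) ≠ rootN n := by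
      intro h
      exact hroot (List.mem_map.2 ⟨s, hs, h⟩)
    simp [inp, hv', Function.update_of_ne this]
  have hl' : P.IsComp (inp v') l r := ⟨hl.1, isPath_congr P l hx hl.2⟩
  have h1 := (hsol (inp v)).2 l r hl
  have h2 := (hsol (inp v')).2 l r hl'
  rw [h1] at h2
  have h3 : v' (rootN n) = a := by simp [hv']
  simp only [BT, value_inp, h3, decide_eq_decide] at h2
  rw [ha] at h2
  by_cases h4 : (v (rootN n)).val = 0
  · simp [h4] at h2
  · simp [h4] at h2

theorem live_comp (hk : 2 ≤ k) (hdet : P.Deterministic) (hsol : P.Solves (BT k n))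
    (hth : P.Thrifty) (v : Node n → Fin k)
    (l : List P.State) (r : Bool) (hl : P.IsComp (inp v) l r) : live n (l.map (nd P)) = ∅ := by
  classical
  rw [eq_empty_iff_forall_notMem]
  intro c hc
  obtain ⟨u, p, z, hw, hcu, hcp⟩ := mem_live n c _ hc
  obtain ⟨lu, lz, rfl, hlu, hlz⟩ := List.map_eq_append_iff.1 hw
  obtain ⟨q, lz', rfl, hq, hlz'⟩ := List.map_eq_cons_iff.1 hlz
  have hex : ∃ a : Fin k, a ≠ v c := by
    have : Nontrivial (Fin k) := Fin.nontrivial_iff_two_le.2 hk
    exact exists_ne _
  obtain ⟨a, ha⟩ := hex
  set v' := Function.update v c a with hv'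
  have hx : ∀ s ∈ lu, inp v (P.query s) = inp v' (P.query s) := by
    intro s hs
    have : nodeOf n (P.query s) ≠ c := by
      intro h
      apply hcu
      rw [← hlu]
      exact List.mem_map.2 ⟨s, hs, h⟩
    simp [inp, hv', Function.update_of_ne this]
  obtain ⟨l', hl'⟩ := (hsol (inp v')).1
  obtain ⟨z', rfl⟩ := prefix_of_agree P hdet q lz' lu l' hx hl.2 hl'.2 (by rw [hl'.1, hl.1])
  have h1 := hth (inp v) _ r hl q (by simp)
  have h2 := hth (inp v') _ _ hl' q (by simp)
  have h3 := thrifty_agree n v v' (P.query q) h1 h2 c (by
    have : nodeOf n (P.query q) = p := hq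
    rw [this]; exact hcp)
  apply ha
  rw [h3, hv']
  simp

/-- **The lower bound.** -/
theorem lower (hk : 2 ≤ k) (hn : 1 ≤ n) (hdet : P.Deterministic) (hsol : P.Solves (BT k n))
    (hth : P.Thrifty) : k ^ (n + 1) ≤ P.size := by
  classical
  -- the computations
  have hcomp : ∀ v : Node n → Fin k, ∃ l r, P.IsComp (inp v) l r := fun v =>
    ⟨_, _, (hsol (inp v)).1.choose_spec⟩
  choose L R hLR using hcomp
  -- the cuts
  have hcut : ∀ v : Node n → Fin k, ∃ (q : P.State) (l : List P.State), q :: l <:+ L v ∧
      n + 1 ≤ (live n ((q :: l).map (nd P))).card := by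
    intro v
    have h1 := live_comp P hk hdet hsol hth v (L v) (R v) (hLR v)
    have h2 := root_mem P hk hsol v (L v) (R v) (hLR v)
    have h3 : ¬ Blocked n (live n ((L v).map (nd P))) := by
      rw [h1]
      intro h
      exact not_nonempty_empty h.nonempty
    obtain ⟨u, z, hz⟩ := List.append_of_mem h2
    have h4 : Blocked n (live n (rootN n :: z)) := by
      obtain ⟨m, rfl⟩ : ∃ m, n = m + 1 := ⟨n - 1, by omega⟩
      refine Or.inr fun s => blocked_of_root (mem_restr.2 (mem_union_left _ ?_))
      rw [children_root]
      cases s <;> simp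
    obtain ⟨y, hy, hy'⟩ := exists_cut n ((L v).map (nd P)) h3
      ⟨rootN n :: z, by rw [hz]; exact List.suffix_append _ _, h4⟩
    obtain ⟨t, ht⟩ := hy
    obtain ⟨l1, l2, hl, hl1, hl2⟩ := List.map_eq_append_iff.1 ht.symm
    cases l2 with
    | nil =>
      simp only [List.map_nil] at hl2
      rw [← hl2] at hy'
      simp [live] at hy'
    | cons q l2 =>
      refine ⟨q, l2, ⟨l1, hl.symm⟩, ?_⟩
      rw [hl2]
      exact hy'
  choose Q S hQS hcard using hcut
  -- suffixes of paths are paths
  have hsuffix : ∀ (x : Input k n) (r : Bool) (u : List P.State) (q : P.State) (l : List P.State),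
      P.IsPath x (u ++ q :: l) r → P.IsPath x (q :: l) r := by
    intro x r u
    induction u with
    | nil => intro q l h; exact h
    | cons p u ih =>
      intro q l h
      apply ih
      cases u with
      | nil => exact h.2
      | cons p' u => exact h.2
  -- bound for the lengths
  set T := (univ.sup fun v : Node n → Fin k => (L v).length) + 1 with hT
  have hfib : ∀ q : P.State, (univ.filter (fun v => Q v = q)).card * k ^ (n + 1) ≤
      k ^ Fintype.card (Node n) := by
    intro q
    have := count P (by omega) hdet T q (univ.filter (fun v => Q v = q)) ∅ (n + 1)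
      (by intro v _ w _ c hc; exact absurd hc (notMem_empty c)) (by
        intro v hv
        obtain ⟨-, rfl⟩ := mem_filter.1 hv
        obtain ⟨u, hu⟩ := hQS v
        refine ⟨S v, R v, ?_, ?_, ?_, ?_⟩
        · have h1 : (L v).length ≤ univ.sup fun v : Node n → Fin k => (L v).length :=
            le_sup (f := fun v : Node n → Fin k => (L v).length) (mem_univ v)
          have h2 : (S v).length ≤ (L v).length := by
            rw [← hu]; simp; omega
          omega
        · have h1 := (hLR v).2
          rw [← hu] at h1
          exact hsuffix _ _ _ _ _ h1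
        · intro s hs
          refine hth (inp v) (L v) (R v) (hLR v) s ?_
          rw [← hu]
          exact List.mem_append_right _ hs
        · rw [sdiff_empty]
          exact hcard v)
    simpa using this
  have hsum : Fintype.card (Node n → Fin k) =
      ∑ q : P.State, (univ.filter (fun v => Q v = q)).card := by
    rw [← card_univ]
    exact card_eq_sum_card_fiberwise (fun v _ => mem_coe.2 (mem_univ _))
  rw [Fintype.card_fun, Fintype.card_fin] at hsum
  have h1 : k ^ Fintype.card (Node n) * k ^ (n + 1) ≤
      Fintype.card P.State * k ^ Fintype.card (Node n) := by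
    calc k ^ Fintype.card (Node n) * k ^ (n + 1)
        = ∑ q : P.State, (univ.filter (fun v => Q v = q)).card * k ^ (n + 1) := by
          rw [hsum, sum_mul]
      _ ≤ ∑ _q : P.State, k ^ Fintype.card (Node n) := sum_le_sum fun q _ => hfib q
      _ = Fintype.card P.State * k ^ Fintype.card (Node n) := by simp
  rw [mul_comm] at h1
  have h2 : k ^ (n + 1) ≤ Fintype.card P.State :=
    Nat.le_of_mul_le_mul_right h1 (by positivity)
  unfold BP.size
  omega

end BP

end Pool.Agent.H554R2.Thrifty
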