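import Pool.Agent.H554R2.Thrifty.Frag

/-!
# The recursive unambiguous thrifty program
-/

set_option autoImplicit false

namespace Pool.Agent.H554R2.Thrifty

open Frag

/-- Digits of the two children values. -/
abbrev D (q : ℕ) : Type := Bool × Fin q

/-- Memory blocks. -/
abbrev J (q : ℕ) : Type := Option (D q)

/-- Assignment of digits to the blocks different from `j`. -/
def emb {q : ℕ} (j : J q) (d : D q) : J q := if some d = j then none else some d

theorem emb_ne {q : ℕ} (j : J q) (d : D q) : emb j d ≠ j := by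
  unfold emb
  split_ifs with h
  · rw [← h]; simp
  · exact h

theorem emb_inj {q : ℕ} (j : J q) : Function.Injective (emb j) := by
  intro d d' h
  unfold emb at h
  split_ifs at h with h1 h2 h2
  · exact Option.some.inj (h1.trans h2.symm)
  · exact Option.some.inj h

theorem emb_surj {q : ℕ} (j : J q) (i : J q) (hi : i ≠ j) : ∃ d, emb j d = i := by
  cases i with
  | some d =>
    refine ⟨d, ?_⟩
    unfold emb
    rw [if_neg hi]
  | none =>
    cases j with
    | none => exact absurd rfl hi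
    | some d =>
      refine ⟨d, ?_⟩
      unfold emb
      rw [if_pos rfl]

/-- One block is changed according to `ψ`, everything is bounded by `B`. -/
def Rel {I : Type} (B : ℕ) (j : I) (ψ : ℕ → ℕ → Prop) (a b : I → ℕ) : Prop :=
  (∀ i, a i < B) ∧ (∀ i, b i < B) ∧ ψ (a j) (b j) ∧ ∀ i, i ≠ j → b i = a i

/-- The blocks `e d`, `d ∈ ds`, are changed according to `θ d`. -/
def SRel {I E : Type} (B : ℕ) (e : E → I) (θ : E → ℕ → ℕ → Prop) (ds : List E)
    (a m : I → ℕ) : Prop :=
  (∀ i, a i < B) ∧ (∀ i, m i < B) ∧ (∀ d ∈ ds, θ d (a (e d)) (m (e d))) ∧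
    ∀ i, (∀ d ∈ ds, e d ≠ i) → m i = a i

/-- Sequential composition along a list. -/
def seqFrag {V : Type} {k : ℕ} {A E : Type} (valid : A → Prop) (C : E → Frag V k A) :
    List E → Frag V k A
  | [] => idOn V k valid
  | d :: ds => comp (C d) (seqFrag valid C ds)

theorem good_seq {V : Type} {k : ℕ} {I E : Type} {x : V → Fin k} {T : V → Prop}
    (e : E → I) (he : Function.Injective e) (B : ℕ) (θ : E → ℕ → ℕ → Prop)
    (C : E → Frag V k (I → ℕ)) (hC : ∀ d, (C d).Good x T (Rel B (e d) (θ d))) :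
    ∀ ds : List E, ds.Nodup →
      (seqFrag (fun a : I → ℕ => ∀ i, a i < B) C ds).Good x T (SRel B e θ ds)
  | [], _ => by
    constructor
    · intro a l b h
      obtain ⟨rfl, rfl, h3⟩ := (run_idOn _ x a b l).1 h
      exact ⟨⟨h3, h3, by simp, fun i _ => rfl⟩, fun q hq => absurd hq List.not_mem_nil⟩
    · rintro a b ⟨h1, h2, h3, h4⟩
      refine ⟨[], (run_idOn _ x a b []).2 ⟨rfl, ?_, h1⟩⟩
      funext i
      exact (h4 i (by simp)).symm
    · intro a b l l' h h'
      obtain ⟨rfl, -⟩ := (run_idOn _ x a b l).1 h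
      obtain ⟨rfl, -⟩ := (run_idOn _ x a b l').1 h'
      rfl
  | d :: ds, hnd => by
    have hd : d ∉ ds := (List.nodup_cons.1 hnd).1
    have hds : ds.Nodup := (List.nodup_cons.1 hnd).2
    have hne : ∀ d' ∈ ds, e d' ≠ e d := by
      intro d' hd' h
      exact hd (he h ▸ hd')
    classical
    refine Good.comp (hC d) (good_seq e he B θ C hC ds hds) ?_ ?_ ?_
    · rintro a b c ⟨ha, hb, h1, h2⟩ ⟨-, hc, h3, h4⟩
      have hcd : c (e d) = b (e d) := h4 (e d) hne
      refine ⟨ha, hc, ?_, ?_⟩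
      · intro d' hd'
        rcases List.mem_cons.1 hd' with rfl | hd'
        · rw [hcd]; exact h1
        · rw [← h2 (e d') (hne d' hd')]
          exact h3 d' hd'
      · intro i hi
        rw [h4 i (fun d' hd' => hi d' (List.mem_cons_of_mem _ hd'))]
        exact h2 i (fun h => hi d List.mem_cons_self h.symm)
    · rintro a c ⟨ha, hc, h1, h2⟩
      refine ⟨Function.update a (e d) (c (e d)), ⟨ha, ?_, ?_, ?_⟩, ⟨?_, hc, ?_, ?_⟩⟩
      · intro i
        by_cases hi : i = e d
        · subst hi; simpa using hc _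
        · simpa [Function.update_of_ne hi] using ha i
      · simpa using h1 d List.mem_cons_self
      · intro i hi
        simp [Function.update_of_ne hi]
      · intro i
        by_cases hi : i = e d
        · subst hi; simpa using hc _
        · simpa [Function.update_of_ne hi] using ha i
      · intro d' hd'
        rw [Function.update_of_ne (hne d' hd')]
        exact h1 d' (List.mem_cons_of_mem _ hd')
      · intro i hi
        by_cases hi' : i = e d
        · subst hi'; simp
        · rw [Function.update_of_ne hi']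
          refine h2 i ?_
          intro d' hd'
          rcases List.mem_cons.1 hd' with rfl | hd'
          · exact fun h => hi' h.symm
          · exact hi d' hd'
    · rintro a b b' c ⟨-, -, -, h1⟩ ⟨-, -, -, h2⟩ ⟨-, -, -, h3⟩ ⟨-, -, -, h4⟩
      funext i
      by_cases hi : i = e d
      · subst hi
        rw [← h2 (e d) hne, ← h4 (e d) hne]
      · rw [h1 i hi, h3 i hi]

/-- Parameters of the construction. -/
structure Params (k q : ℕ) where
  b : ℕ
  dg : Fin k → Fin q → ℕ
  dg_lt : ∀ c t, dg c t < b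
  dg_inj : ∀ c c', (∀ t, dg c t = dg c' t) → c = c'
  B : ℕ → ℕ
  lft : ℕ → ℕ → ℕ → ℕ
  rgt : ℕ → ℕ → ℕ → ℕ
  mono : ∀ n, B (n + 1) ≤ B n
  lft_lt : ∀ n u y, u < b → y < B (n + 1) → lft n u y < B n
  rgt_lt : ∀ n u y, u < b → y < B (n + 1) → rgt n u y < B n
  lft_inj : ∀ n u y y', u < b → y < B (n + 1) → y' < B (n + 1) → lft n u y = lft n u y' → y = y'
  rgt_inj : ∀ n u y y', u < b → y < B (n + 1) → y' < B (n + 1) → rgt n u y = rgt n u y' → y = y'
  key : ∀ n u u' y y' y'', u < b → u' < b → y < B (n + 1) → y' < B (n + 1) → y'' < B (n + 1) →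
    lft n u y = lft n u' y' → rgt n u' y' = rgt n u y'' → u = u'

/-- Component of a pair. -/
def sel {α : Type} (w : α × α) (s : Bool) : α := cond s w.2 w.1

/-- Relational form of the encodings. -/
def IsEnc {k q : ℕ} (dg : Fin k → Fin q → ℕ) (f : ℕ → ℕ → ℕ) (j : J q) (w : Fin k × Fin k)
    (a m : J q → ℕ) : Prop :=
  m j = a j ∧ ∀ d : D q, m (emb j d) = f (dg (sel w d.1) d.2) (a (emb j d))

/-- The fragment for a leaf. -/
def leafFrag (k q B : ℕ) (j : J q) (Ψ : Fin k → ℕ → ℕ → Prop) : Frag (Var k 0) k (J q → ℕ) where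
  Q := J q → Fin B
  query := fun _ => ()
  enter := fun a t => ∃ s : J q → Fin B, t = Sum.inl s ∧ a = fun i => (s i : ℕ)
  step := fun s c t => ∃ b, t = Sum.inr b ∧ Rel B j (Ψ c) (fun i => (s i : ℕ)) b

/-- The fragment for the query of an inner node. -/
def queryFrag {k q : ℕ} (dg : Fin k → Fin q → ℕ) (B : ℕ) (lf rg : ℕ → ℕ → ℕ) (n : ℕ) (j : J q)
    (Ψ : Fin k → ℕ → ℕ → Prop) : Frag (Var k (n + 1)) k (J q → ℕ) where
  Q := (Fin k × Fin k) × (J q → Fin B)
  query := fun s => Sum.inl s.1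
  enter := fun m t => ∃ s : (Fin k × Fin k) × (J q → Fin B), t = Sum.inl s ∧
    IsEnc dg lf j s.1 (fun i => (s.2 i : ℕ)) m
  step := fun s c t => ∃ b m, t = Sum.inr m ∧ Rel B j (Ψ c) (fun i => (s.2 i : ℕ)) b ∧
    IsEnc dg rg j s.1 b m

/-- The recursive program. -/
noncomputable def prog {k q : ℕ} (P : Params k q) : (n : ℕ) → J q → (Fin k → ℕ → ℕ → Prop) →
    Frag (Var k n) k (J q → ℕ)
  | 0, j, Ψ => leafFrag k q (P.B 0) j Ψ
  | n + 1, j, Ψ =>
    comp (seqFrag (fun a => ∀ i, a i < P.B n)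
        (fun d : D q => mapVar (fun v => (Sum.inr (d.1, v) : Var k (n + 1)))
          (prog P n (emb j d) (fun c y z => y < P.B (n + 1) ∧ z = P.lft n (P.dg c d.2) y)))
        Finset.univ.toList)
      (comp (queryFrag P.dg (P.B (n + 1)) (P.lft n) (P.rgt n) n j Ψ)
        (seqFrag (fun a => ∀ i, a i < P.B n)
          (fun d : D q => mapVar (fun v => (Sum.inr (d.1, v) : Var k (n + 1)))
            (prog P n (emb j d) (fun c y z => z < P.B (n + 1) ∧ y = P.rgt n (P.dg c d.2) z)))
          Finset.univ.toList))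

theorem good_leaf (k q B : ℕ) (j : J q) (Ψ : Fin k → ℕ → ℕ → Prop) (x : Input k 0) :
    (leafFrag k q B j Ψ).Good x (ThriftyVar 0 x) (Rel B j (Ψ (value 0 x))) := by
  have key : ∀ a l b, (leafFrag k q B j Ψ).Run x a l b ↔
      ∃ s : J q → Fin B, l = [s] ∧ a = (fun i => (s i : ℕ)) ∧
        Rel B j (Ψ (value 0 x)) (fun i => (s i : ℕ)) b := by
    intro a l b
    constructor
    · rintro ⟨t, ⟨s, rfl, ha⟩, h⟩
      cases l with
      | nil => cases (h : (Sum.inl s : (J q → Fin B) ⊕ (J q → ℕ)) = Sum.inr b)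
      | cons s' l =>
        obtain ⟨h1, t', ⟨b', rfl, h2⟩, h3⟩ := h
        have hs : s = s' := Sum.inl.inj h1
        subst hs
        cases l with
        | nil =>
          have h3' : (Sum.inr b' : (leafFrag k q B j Ψ).Q ⊕ (J q → ℕ)) = Sum.inr b := h3
          have hb : b' = b := Sum.inr.inj h3'
          subst hb
          exact ⟨s, rfl, ha, h2⟩
        | cons s'' l => exact absurd h3.1 (by simp)
    · rintro ⟨s, rfl, ha, h⟩
      exact ⟨Sum.inl s, ⟨s, rfl, ha⟩, rfl, Sum.inr b, ⟨b, rfl, h⟩, rfl⟩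
  constructor
  · intro a l b h
    obtain ⟨s, rfl, ha, h1⟩ := (key a l b).1 h
    subst ha
    exact ⟨h1, fun _ _ => trivial⟩
  · intro a b h
    refine ⟨[fun i => ⟨a i, h.1 i⟩], (key _ _ _).2 ⟨_, rfl, rfl, h⟩⟩
  · intro a b l l' h h'
    obtain ⟨s, rfl, ha, -⟩ := (key a l b).1 h
    obtain ⟨s', rfl, ha', -⟩ := (key a l' b).1 h'
    have : s = s' := by
      funext i
      have := congrFun (ha.symm.trans ha') i
      exact Fin.ext this
    rw [this]

theorem run_query {k q : ℕ} (dg : Fin k → Fin q → ℕ) (B : ℕ) (lf rg : ℕ → ℕ → ℕ) (n : ℕ) (j : J q)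
    (Ψ : Fin k → ℕ → ℕ → Prop) (x : Input k (n + 1)) (m m' : J q → ℕ)
    (l : List (queryFrag dg B lf rg n j Ψ).Q) :
    (queryFrag dg B lf rg n j Ψ).Run x m l m' ↔
      ∃ s : (Fin k × Fin k) × (J q → Fin B), l = [s] ∧ IsEnc dg lf j s.1 (fun i => (s.2 i : ℕ)) m ∧
        ∃ b, Rel B j (Ψ (x (Sum.inl s.1))) (fun i => (s.2 i : ℕ)) b ∧ IsEnc dg rg j s.1 b m' := by
  constructor
  · rintro ⟨t, ⟨s, rfl, ha⟩, h⟩
    cases l with
    | nil =>
      cases (h : (Sum.inl s : ((Fin k × Fin k) × (J q → Fin B)) ⊕ (J q → ℕ)) = Sum.inr m')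
    | cons s' l =>
      obtain ⟨h1, t', ⟨b', m'', rfl, h2, h4⟩, h3⟩ := h
      have hs : s = s' := Sum.inl.inj h1
      subst hs
      cases l with
      | nil =>
        have h3' : (Sum.inr m'' : (queryFrag dg B lf rg n j Ψ).Q ⊕ (J q → ℕ)) = Sum.inr m' := h3
        have hb : m'' = m' := Sum.inr.inj h3'
        subst hb
        exact ⟨s, rfl, ha, b', h2, h4⟩
      | cons s'' l => exact absurd h3.1 (by simp)
  · rintro ⟨s, rfl, ha, b, h, h'⟩
    exact ⟨Sum.inl s, ⟨s, rfl, ha⟩, rfl, Sum.inr m', ⟨b, m', rfl, h, h'⟩, rfl⟩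

/-- Existence of encodings. -/
theorem exists_enc {k q : ℕ} (dg : Fin k → Fin q → ℕ) (f : ℕ → ℕ → ℕ) (j : J q)
    (w : Fin k × Fin k) (a : J q → ℕ) : ∃ m, IsEnc dg f j w a m := by
  classical
  refine ⟨Function.extend (emb j) (fun d => f (dg (sel w d.1) d.2) (a (emb j d))) a, ?_, ?_⟩
  · rw [Function.extend_apply']
    rintro ⟨d, hd⟩
    exact emb_ne j d hd
  · intro d
    rw [(emb_inj j).extend_apply]

theorem good_prog {k q : ℕ} (P : Params k q) : ∀ (n : ℕ) (j : J q) (Ψ : Fin k → ℕ → ℕ → Prop)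
    (x : Input k n), (prog P n j Ψ).Good x (ThriftyVar n x) (Rel (P.B n) j (Ψ (value n x)))
  | 0, j, Ψ, x => good_leaf k q (P.B 0) j Ψ x
  | n + 1, j, Ψ, x => by
    set v : Fin k × Fin k := (value n (sub x false), value n (sub x true)) with hv
    have hval : value (n + 1) x = x (Sum.inl v) := rfl
    have hsel : ∀ s : Bool, value n (sub x s) = sel v s := by
      intro s; cases s <;> rfl
    set CL := fun d : D q => mapVar (fun u => (Sum.inr (d.1, u) : Var k (n + 1)))
          (prog P n (emb j d) (fun c y z => y < P.B (n + 1) ∧ z = P.lft n (P.dg c d.2) y))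
      with hCL
    set CR := fun d : D q => mapVar (fun u => (Sum.inr (d.1, u) : Var k (n + 1)))
          (prog P n (emb j d) (fun c y z => z < P.B (n + 1) ∧ y = P.rgt n (P.dg c d.2) z))
      with hCR
    have gL : ∀ d, (CL d).Good x (ThriftyVar (n + 1) x) (Rel (P.B n) (emb j d)
        (fun y z => y < P.B (n + 1) ∧ z = P.lft n (P.dg (sel v d.1) d.2) y)) := by
      intro d
      have := good_prog P n (emb j d)
        (fun c y z => y < P.B (n + 1) ∧ z = P.lft n (P.dg c d.2) y) (sub x d.1)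
      rw [hsel] at this
      exact Good.mapVar (g := fun u => (Sum.inr (d.1, u) : Var k (n + 1))) this
        (fun u hu => hu)
    have gR : ∀ d, (CR d).Good x (ThriftyVar (n + 1) x) (Rel (P.B n) (emb j d)
        (fun y z => z < P.B (n + 1) ∧ y = P.rgt n (P.dg (sel v d.1) d.2) z)) := by
      intro d
      have := good_prog P n (emb j d)
        (fun c y z => z < P.B (n + 1) ∧ y = P.rgt n (P.dg c d.2) z) (sub x d.1)
      rw [hsel] at this
      exact Good.mapVar (g := fun u => (Sum.inr (d.1, u) : Var k (n + 1))) this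
        (fun u hu => hu)
    have sL := good_seq (emb j) (emb_inj j) (P.B n) _ CL gL Finset.univ.toList
      (Finset.nodup_toList _)
    have sR := good_seq (emb j) (emb_inj j) (P.B n) _ CR gR Finset.univ.toList
      (Finset.nodup_toList _)
    set FL := seqFrag (fun a : J q → ℕ => ∀ i, a i < P.B n) CL Finset.univ.toList with hFL
    set FR := seqFrag (fun a : J q → ℕ => ∀ i, a i < P.B n) CR Finset.univ.toList with hFR
    set FQ := queryFrag P.dg (P.B (n + 1)) (P.lft n) (P.rgt n) n j Ψ with hFQ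
    have hprog : prog P (n + 1) j Ψ = comp FL (comp FQ FR) := rfl
    rw [hprog]
    have hmem : ∀ d : D q, d ∈ (Finset.univ : Finset (D q)).toList := by
      intro d; simp
    -- decomposition of runs
    have hrun : ∀ a l b, (comp FL (comp FQ FR)).Run x a l b →
        ∃ (l1 : List FL.Q) (l3 : List FR.Q) (m m' : J q → ℕ) (s : J q → Fin (P.B (n + 1))),
          l = l1.map Sum.inl ++ (([((v, s) : FQ.Q)] : List FQ.Q).map Sum.inl ++
            l3.map Sum.inr).map Sum.inr ∧
          FL.Run x a l1 m ∧ FR.Run x m' l3 b ∧ (a = fun i => (s i : ℕ)) ∧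
          IsEnc P.dg (P.lft n) j v a m ∧ IsEnc P.dg (P.rgt n) j v b m' ∧
          Rel (P.B (n + 1)) j (Ψ (x (Sum.inl v))) a b := by
      intro a l b h
      obtain ⟨m, l1, l23, rfl, r1, r23⟩ := (run_comp _ _ x a b l).1 h
      obtain ⟨m', l2, l3, rfl, r2, r3⟩ := (run_comp _ _ x m b l23).1 r23
      obtain ⟨⟨w, s⟩, rfl, e1, b', e2, e3⟩ := (run_query _ _ _ _ _ _ _ _ _ _ _).1 r2
      obtain ⟨⟨u1, u2, u3, u4⟩, -⟩ := sL.sound _ _ _ r1
      obtain ⟨⟨w1, w2, w3, w4⟩, -⟩ := sR.sound _ _ _ r3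
      obtain ⟨e11, e12⟩ := e1
      obtain ⟨e31, e32⟩ := e3
      obtain ⟨e21, e22, e23, e24⟩ := e2
      simp only at e11 e12 e31 e32 e21 e22 e23 e24
      have hdig : ∀ d : D q, P.dg (sel v d.1) d.2 = P.dg (sel w d.1) d.2 := by
        intro d
        obtain ⟨u31, u32⟩ := u3 d (hmem d)
        obtain ⟨w31, w32⟩ := w3 d (hmem d)
        refine P.key n _ _ (a (emb j d)) (s (emb j d)) (b (emb j d)) (P.dg_lt _ _) (P.dg_lt _ _)
          u31 (s (emb j d)).2 w31 ?_ ?_
        · rw [← u32, e12 d]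
        · rw [← w32, e32 d, e24 _ (emb_ne j d)]
      have hvw : v = w := by
        have h1 : ∀ s', sel v s' = sel w s' := fun s' =>
          P.dg_inj _ _ (fun t => hdig (s', t))
        exact Prod.ext (h1 false) (h1 true)
      subst hvw
      have has : a = fun i => (s i : ℕ) := by
        funext i
        by_cases hi : i = j
        · subst hi
          rw [← e11]
          exact (u4 i (fun d _ => emb_ne i d)).symm
        · obtain ⟨d, rfl⟩ := emb_surj j i hi
          obtain ⟨u31, u32⟩ := u3 d (hmem d)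
          refine P.lft_inj n _ _ _ (P.dg_lt (sel v d.1) d.2) u31 (s (emb j d)).2 ?_
          rw [← u32, e12 d]
      have hbb : b' = b := by
        funext i
        by_cases hi : i = j
        · subst hi
          rw [← e31]
          exact (w4 i (fun d _ => emb_ne i d)).symm
        · obtain ⟨d, rfl⟩ := emb_surj j i hi
          obtain ⟨w31, w32⟩ := w3 d (hmem d)
          refine P.rgt_inj n _ _ _ (P.dg_lt (sel v d.1) d.2) (e22 _) w31 ?_
          rw [← w32, e32 d]
      subst hbb
      refine ⟨l1, l3, m, m', s, rfl, r1, r3, has, ?_, ⟨e31, e32⟩, ?_⟩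
      · rw [has]; exact ⟨e11, e12⟩
      · rw [has]; exact ⟨e21, e22, e23, e24⟩
    constructor
    · intro a l b h
      obtain ⟨l1, l3, m, m', s, rfl, r1, r3, has, e1, e2, hrel⟩ := hrun a l b h
      refine ⟨hrel, ?_⟩
      intro p hp
      rcases List.mem_append.1 hp with hp | hp
      · obtain ⟨p', hp', rfl⟩ := List.mem_map.1 hp
        exact (sL.sound _ _ _ r1).2 p' hp'
      · obtain ⟨p', hp', rfl⟩ := List.mem_map.1 hp
        rcases List.mem_append.1 hp' with hp'' | hp''
        · obtain ⟨p2, hp2, rfl⟩ := List.mem_map.1 hp''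
          have : p2 = (v, s) := by simpa using hp2
          subst this
          exact rfl
        · obtain ⟨p2, hp2, rfl⟩ := List.mem_map.1 hp''
          exact (sR.sound _ _ _ r3).2 p2 hp2
    · intro a b hab
      obtain ⟨h1, h2, h3, h4⟩ := hab
      obtain ⟨m, hm⟩ := exists_enc P.dg (P.lft n) j v a
      obtain ⟨m', hm'⟩ := exists_enc P.dg (P.rgt n) j v b
      have hmB : ∀ i, m i < P.B n := by
        intro i
        by_cases hi : i = j
        · subst hi; rw [hm.1]; exact lt_of_lt_of_le (h1 i) (P.mono n)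
        · obtain ⟨d, rfl⟩ := emb_surj j i hi
          rw [hm.2]; exact P.lft_lt _ _ _ (P.dg_lt _ _) (h1 _)
      have hmB' : ∀ i, m' i < P.B n := by
        intro i
        by_cases hi : i = j
        · subst hi; rw [hm'.1]; exact lt_of_lt_of_le (h2 i) (P.mono n)
        · obtain ⟨d, rfl⟩ := emb_surj j i hi
          rw [hm'.2]; exact P.rgt_lt _ _ _ (P.dg_lt _ _) (h2 _)
      obtain ⟨l1, hl1⟩ := sL.complete a m ⟨fun i => lt_of_lt_of_le (h1 i) (P.mono n), hmB,
        fun d _ => ⟨h1 _, hm.2 d⟩, fun i hi => by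
          by_cases hij : i = j
          · subst hij; exact hm.1
          · obtain ⟨d, hd⟩ := emb_surj j i hij
            exact absurd hd (hi d (hmem d))⟩
      obtain ⟨l3, hl3⟩ := sR.complete m' b ⟨hmB', fun i => lt_of_lt_of_le (h2 i) (P.mono n),
        fun d _ => ⟨h2 _, hm'.2 d⟩, fun i hi => by
          by_cases hij : i = j
          · subst hij; exact hm'.1.symm
          · obtain ⟨d, hd⟩ := emb_surj j i hij
            exact absurd hd (hi d (hmem d))⟩
      refine ⟨_, (run_comp _ _ x a b _).2 ⟨m, l1, _, rfl, hl1,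
        (run_comp _ _ x m b _).2 ⟨m', [(v, fun i => ⟨a i, h1 i⟩)], l3, rfl, ?_, hl3⟩⟩⟩
      exact (run_query _ _ _ _ _ _ _ _ _ _ _).2 ⟨(v, fun i => ⟨a i, h1 i⟩), rfl, hm, b,
        ⟨h1, h2, h3, h4⟩, hm'⟩
    · intro a b l l' h h'
      obtain ⟨l1, l3, m, m', s, rfl, r1, r3, has, e1, e2, -⟩ := hrun a l b h
      obtain ⟨l1', l3', m2, m2', s', rfl, r1', r3', has', e1', e2', -⟩ := hrun a l' b h'
      have hss : s = s' := by
        funext i
        exact Fin.ext (congrFun (has.symm.trans has') i)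
      have hm : m = m2 := by
        funext i
        by_cases hi : i = j
        · subst hi; rw [e1.1, e1'.1]
        · obtain ⟨d, rfl⟩ := emb_surj j i hi
          rw [e1.2, e1'.2]
      have hm' : m' = m2' := by
        funext i
        by_cases hi : i = j
        · subst hi; rw [e2.1, e2'.1]
        · obtain ⟨d, rfl⟩ := emb_surj j i hi
          rw [e2.2, e2'.2]
      subst hss hm hm'
      rw [sL.unique _ _ _ _ r1 r1', sR.unique _ _ _ _ r3 r3']

end Pool.Agent.H554R2.Thrifty
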