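import Pool.Agent.H554R2.Thrifty.Prog

/-!
# Size of the recursive program, and the branching program obtained from it
-/

set_option autoImplicit false

namespace Pool.Agent.H554R2.Thrifty

open Frag

theorem card_seq {V : Type} {k : ℕ} {A E : Type} (valid : A → Prop) (C : E → Frag V k A) (N : ℕ)
    (h : ∀ d, Finite (C d).Q ∧ Nat.card (C d).Q ≤ N) : ∀ ds : List E,
    Finite (seqFrag valid C ds).Q ∧ Nat.card (seqFrag valid C ds).Q ≤ ds.length * N
  | [] => ⟨(inferInstance : Finite Empty), by
      have : Nat.card (seqFrag valid C []).Q = Nat.card Empty := rfl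
      rw [this]; simp⟩
  | d :: ds => by
    obtain ⟨h1, h2⟩ := h d
    obtain ⟨h3, h4⟩ := card_seq valid C N h ds
    have hq : (seqFrag valid C (d :: ds)).Q = ((C d).Q ⊕ (seqFrag valid C ds).Q) := rfl
    rw [hq]
    refine ⟨inferInstance, ?_⟩
    rw [Nat.card_sum, List.length_cons]
    calc _ ≤ N + ds.length * N := Nat.add_le_add h2 h4
      _ = (ds.length + 1) * N := by ring

theorem B_le {k q : ℕ} (P : Params k q) : ∀ n, P.B n ≤ P.B 0
  | 0 => le_rfl
  | n + 1 => (P.mono n).trans (B_le P n)

theorem card_prog {k q : ℕ} (P : Params k q) (hk : 1 ≤ k) : ∀ (n : ℕ) (j : J q)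
    (Ψ : Fin k → ℕ → ℕ → Prop), Finite (prog P n j Ψ).Q ∧
      Nat.card (prog P n j Ψ).Q ≤ (4 * q + 1) ^ n * (k ^ 2 * P.B 0 ^ (2 * q + 1))
  | 0, j, Ψ => by
    have hq : (prog P 0 j Ψ).Q = (J q → Fin (P.B 0)) := rfl
    rw [hq]
    refine ⟨inferInstance, ?_⟩
    rw [Nat.card_eq_fintype_card, Fintype.card_fun, Fintype.card_fin, Fintype.card_option,
      Fintype.card_prod, Fintype.card_bool, Fintype.card_fin, pow_zero, one_mul]
    exact Nat.le_mul_of_pos_left _ (by positivity)
  | n + 1, j, Ψ => by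
    set X := k ^ 2 * P.B 0 ^ (2 * q + 1) with hX
    have hlen : (Finset.univ : Finset (D q)).toList.length = 2 * q := by
      rw [Finset.length_toList, Finset.card_univ, Fintype.card_prod, Fintype.card_bool,
        Fintype.card_fin]
    have h1 := card_seq (fun a : J q → ℕ => ∀ i, a i < P.B n)
      (fun d : D q => mapVar (fun v => (Sum.inr (d.1, v) : Var k (n + 1)))
          (prog P n (emb j d) (fun c y z => y < P.B (n + 1) ∧ z = P.lft n (P.dg c d.2) y)))
      ((4 * q + 1) ^ n * X) (fun d => card_prog P hk n _ _) Finset.univ.toList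
    have h2 := card_seq (fun a : J q → ℕ => ∀ i, a i < P.B n)
      (fun d : D q => mapVar (fun v => (Sum.inr (d.1, v) : Var k (n + 1)))
          (prog P n (emb j d) (fun c y z => z < P.B (n + 1) ∧ y = P.rgt n (P.dg c d.2) z)))
      ((4 * q + 1) ^ n * X) (fun d => card_prog P hk n _ _) Finset.univ.toList
    rw [hlen] at h1 h2
    obtain ⟨f1, c1⟩ := h1
    obtain ⟨f2, c2⟩ := h2
    have hq : (prog P (n + 1) j Ψ).Q =
      ((seqFrag (fun a : J q → ℕ => ∀ i, a i < P.B n)
      (fun d : D q => mapVar (fun v => (Sum.inr (d.1, v) : Var k (n + 1)))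
          (prog P n (emb j d) (fun c y z => y < P.B (n + 1) ∧ z = P.lft n (P.dg c d.2) y)))
          Finset.univ.toList).Q ⊕ (((Fin k × Fin k) × (J q → Fin (P.B (n + 1)))) ⊕
        (seqFrag (fun a : J q → ℕ => ∀ i, a i < P.B n)
      (fun d : D q => mapVar (fun v => (Sum.inr (d.1, v) : Var k (n + 1)))
          (prog P n (emb j d) (fun c y z => z < P.B (n + 1) ∧ y = P.rgt n (P.dg c d.2) z)))
          Finset.univ.toList).Q)) := rfl
    rw [hq]
    refine ⟨inferInstance, ?_⟩
    rw [Nat.card_sum, Nat.card_sum]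
    have hmid : Nat.card ((Fin k × Fin k) × (J q → Fin (P.B (n + 1)))) ≤ X := by
      rw [Nat.card_eq_fintype_card, Fintype.card_prod, Fintype.card_prod, Fintype.card_fun,
        Fintype.card_fin, Fintype.card_fin, Fintype.card_option,
        Fintype.card_prod, Fintype.card_bool, Fintype.card_fin, hX, ← pow_two]
      exact Nat.mul_le_mul_left _ (Nat.pow_le_pow_left (B_le P (n + 1)) _)
    have hone : 1 ≤ (4 * q + 1) ^ n := Nat.one_le_pow _ _ (by omega)
    calc _ ≤ 2 * q * ((4 * q + 1) ^ n * X) + (X + 2 * q * ((4 * q + 1) ^ n * X)) :=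
          Nat.add_le_add c1 (Nat.add_le_add hmid c2)
      _ ≤ 2 * q * ((4 * q + 1) ^ n * X) + ((4 * q + 1) ^ n * X + 2 * q * ((4 * q + 1) ^ n * X)) := by
          have : X ≤ (4 * q + 1) ^ n * X := Nat.le_mul_of_pos_left _ hone
          omega
      _ = (4 * q + 1) ^ (n + 1) * X := by ring

/-- A leaf variable. -/
def leafVar (k : ℕ) : (n : ℕ) → Var k n
  | 0 => ()
  | n + 1 => Sum.inr (false, leafVar k n)

theorem thrifty_leafVar {k : ℕ} : ∀ (n : ℕ) (x : Input k n), ThriftyVar n x (leafVar k n)
  | 0, _ => trivial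
  | n + 1, x => thrifty_leafVar n (sub x false)

/-- The branching program obtained from a fragment, an initial label and an acceptance
condition. -/
noncomputable def toBP {V : Type} {k : ℕ} {A : Type} (F : Frag V k A) [Finite F.Q] (v0 : V)
    (a0 : A) (acc : A → Bool) : BP V k where
  State := Option F.Q
  fintype := Fintype.ofFinite _
  start := none
  query := fun s => match s with
    | none => v0
    | some q => F.query q
  edge := fun s c t => match s, t with
    | none, Sum.inl (some q) => F.enter a0 (Sum.inl q)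
    | none, Sum.inl none => False
    | none, Sum.inr r => ∃ b, F.enter a0 (Sum.inr b) ∧ acc b = r
    | some p, Sum.inl (some q) => F.step p c (Sum.inl q)
    | some _, Sum.inl none => False
    | some p, Sum.inr r => ∃ b, F.step p c (Sum.inr b) ∧ acc b = r

section toBP

variable {V : Type} {k : ℕ} {A : Type} (F : Frag V k A) [Finite F.Q] (v0 : V)
    (a0 : A) (acc : A → Bool)

theorem isPath_toBP_some (x : V → Fin k) (r : Bool) : ∀ (l : List (Option F.Q)) (p : F.Q),
    (toBP F v0 a0 acc).IsPath x (some p :: l) r ↔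
      ∃ (l' : List F.Q) (b : A), l = l'.map some ∧ acc b = r ∧
        ∃ t, F.step p (x (F.query p)) t ∧ F.Path x b t l'
  | [], p => by
    constructor
    · rintro ⟨b, h1, h2⟩
      exact ⟨[], b, rfl, h2, Sum.inr b, h1, rfl⟩
    · rintro ⟨l', b, h, h2, t, h3, h4⟩
      have : l' = [] := by simpa using h.symm
      subst this
      have h4' : t = Sum.inr b := h4
      subst h4'
      exact ⟨b, h3, h2⟩
  | none :: l, p => by
    constructor
    · rintro ⟨h, -⟩
      exact h.elim
    · rintro ⟨l', b, h, -⟩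
      cases l' <;> simp at h
  | some p' :: l, p => by
    constructor
    · rintro ⟨h1, h2⟩
      obtain ⟨l', b, h3, h4, t, h5, h6⟩ := (isPath_toBP_some x r l p').1 h2
      exact ⟨p' :: l', b, by simp [h3], h4, Sum.inl p', h1, rfl, t, h5, h6⟩
    · rintro ⟨l', b, h, h4, t, h5, h6⟩
      cases l' with
      | nil => simp at h
      | cons p2 l' =>
        simp only [List.map_cons, List.cons.injEq, Option.some.injEq] at h
        obtain ⟨rfl, hl⟩ := h
        obtain ⟨h7, t', h8, h9⟩ := h6
        subst h7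
        exact ⟨h5, (isPath_toBP_some x r l p').2 ⟨l', b, hl, h4, t', h8, h9⟩⟩

theorem isComp_toBP (x : V → Fin k) (r : Bool) (l : List (Option F.Q)) :
    (toBP F v0 a0 acc).IsComp x l r ↔
      ∃ (l' : List F.Q) (b : A), l = none :: l'.map some ∧ acc b = r ∧ F.Run x a0 l' b := by
  constructor
  · rintro ⟨h1, h2⟩
    cases l with
    | nil => cases (h1 : (none : Option (Option F.Q)) = some none)
    | cons s l =>
      have hs : s = none := Option.some.inj h1
      subst hs
      cases l with
      | nil =>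
        obtain ⟨b, h3, h4⟩ := h2
        exact ⟨[], b, rfl, h4, Sum.inr b, h3, rfl⟩
      | cons s l =>
        obtain ⟨h3, h4⟩ := h2
        cases s with
        | none => exact h3.elim
        | some p =>
          obtain ⟨l', b, h5, h6, t, h7, h8⟩ := (isPath_toBP_some F v0 a0 acc x r l p).1 h4
          exact ⟨p :: l', b, by simp [h5], h6, Sum.inl p, h3, rfl, t, h7, h8⟩
  · rintro ⟨l', b, rfl, h1, t, h2, h3⟩
    refine ⟨rfl, ?_⟩
    cases l' with
    | nil =>
      have h3' : t = Sum.inr b := h3
      subst h3'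
      exact ⟨b, h2, h1⟩
    | cons p l' =>
      obtain ⟨h4, t', h5, h6⟩ := h3
      subst h4
      exact ⟨h2, (isPath_toBP_some F v0 a0 acc x r (l'.map some) p).2
        ⟨l', b, rfl, h1, t', h5, h6⟩⟩

end toBP

/-- The unambiguous thrifty program for given parameters. -/
theorem exists_BP {k q : ℕ} (P : Params k q) (hk : 1 ≤ k) (n : ℕ) (hB : 2 ≤ P.B n) :
    ∃ M : BP (Var k n) k, M.Unambiguous ∧ M.Solves (BT k n) ∧ M.Thrifty ∧
      M.size ≤ (4 * q + 1) ^ n * (k ^ 2 * P.B 0 ^ (2 * q + 1)) + 3 := by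
  classical
  set Ψ : Fin k → ℕ → ℕ → Prop := fun c y z => y = 0 ∧ z = if c.val = 0 then 1 else 0 with hΨ
  set F := prog P n none Ψ with hF
  obtain ⟨hfin, hcard⟩ := card_prog P hk n none Ψ
  have : Finite F.Q := hfin
  set a0 : J q → ℕ := fun _ => 0 with ha0
  set acc : (J q → ℕ) → Bool := fun b => decide (b none = 1) with hacc
  have good := fun x => good_prog P n none Ψ x
  refine ⟨toBP F (leafVar k n) a0 acc, ?_, ?_, ?_, ?_⟩
  · intro x l l' r r' h h'
    obtain ⟨l1, b, rfl, h1, h2⟩ := (isComp_toBP F _ a0 acc x r l).1 h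
    obtain ⟨l1', b', rfl, h1', h2'⟩ := (isComp_toBP F _ a0 acc x r' l').1 h'
    obtain ⟨⟨-, -, h3, h4⟩, -⟩ := (good x).sound _ _ _ h2
    obtain ⟨⟨-, -, h3', h4'⟩, -⟩ := (good x).sound _ _ _ h2'
    have hb : b = b' := by
      funext i
      by_cases hi : i = none
      · subst hi; rw [h3.2, h3'.2]
      · rw [h4 i hi, h4' i hi]
    subst hb
    rw [(good x).unique _ _ _ _ h2 h2', ← h1, ← h1']
    exact ⟨rfl, rfl⟩
  · intro x
    have hacc' : ∀ b : J q → ℕ, b none = (if (value n x).val = 0 then 1 else 0) →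
        acc b = BT k n x := by
      intro b hb
      simp only [hacc, BT, hb]
      by_cases h : (value n x).val = 0 <;> simp [h]
    constructor
    · set b : J q → ℕ := fun i => if i = none then (if (value n x).val = 0 then 1 else 0) else 0
        with hb
      have hR : Rel (P.B n) none (Ψ (value n x)) a0 b := by
        refine ⟨fun i => by simp only [ha0]; omega, fun i => ?_, ⟨rfl, by simp [hb]⟩,
          fun i hi => by simp [hb, hi, ha0]⟩
        simp only [hb]
        split_ifs <;> omega
      obtain ⟨l, hl⟩ := (good x).complete a0 b hR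
      exact ⟨_, (isComp_toBP F _ a0 acc x _ _).2 ⟨l, b, rfl, hacc' b (by simp [hb]), hl⟩⟩
    · intro l r h
      obtain ⟨l1, b, rfl, h1, h2⟩ := (isComp_toBP F _ a0 acc x r l).1 h
      obtain ⟨⟨-, -, h3, h4⟩, -⟩ := (good x).sound _ _ _ h2
      rw [← h1]
      exact hacc' b h3.2
  · intro x l r h s hs
    obtain ⟨l1, b, rfl, h1, h2⟩ := (isComp_toBP F _ a0 acc x r l).1 h
    rcases List.mem_cons.1 hs with rfl | hs
    · exact thrifty_leafVar n x
    · obtain ⟨p, hp, rfl⟩ := List.mem_map.1 hs
      exact ((good x).sound _ _ _ h2).2 p hp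
  · have h1 : (toBP F (leafVar k n) a0 acc).size = Nat.card (Option F.Q) + 2 := by
      unfold BP.size
      rw [← Nat.card_eq_fintype_card]
      rfl
    have h2 : Nat.card (Option F.Q) = Nat.card F.Q + 1 := Finite.card_option
    have h3 : Nat.card F.Q = Nat.card (prog P n none Ψ).Q := rfl
    omega

end Pool.Agent.H554R2.Thrifty
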