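import Pool.Agent.H554R2.Thrifty.Sphere
import Pool.Agent.H554R2.Thrifty.ToBP

/-!
# Parameters from spherical shells in growing boxes
-/

set_option autoImplicit false

namespace Pool.Agent.H554R2.Thrifty

open Finset

/-- Parameters for a tree of index `n`, digits to the base `L ^ ((g - 2) * e)`. -/
theorem exists_params_shell (k q g e L n : ℕ) (hg : 2 ≤ g) (he : 1 ≤ e) (hL : 2 ^ g ≤ L)
    (hk : k ≤ (L ^ ((g - 2) * e)) ^ q) :
    ∃ P : Params k q, P.B 0 = (2 * L * (n + 1)) ^ (g * e) * (2 * g * L ^ 2 + 2) ^ n ∧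
      2 ≤ P.B n := by
  classical
  have hL4 : 4 ≤ L := by
    calc 4 = 2 ^ 2 := by norm_num
      _ ≤ 2 ^ g := Nat.pow_le_pow_right (by norm_num) hg
      _ ≤ L := hL
  obtain ⟨C, hC1, hC2⟩ := exists_code g e L hg he hL
  set T := L ^ ((g - 2) * e) with hT
  obtain ⟨κ⟩ : Nonempty (Fin T ↪ C) := by
    apply Function.Embedding.nonempty_of_card_le
    rw [Fintype.card_fin, Fintype.card_coe]
    exact hC1
  let s : ℕ → Fin (g * e) → Fin L := fun u =>
    if hu : u < T then (κ ⟨u, hu⟩).1 else fun _ => ⟨0, by omega⟩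
  have hs : ∀ u u', u < T → u' < T → u ≠ u' → e ≤ hammingDist (s u) (s u') := by
    intro u u' hu hu' hne
    have h1 : s u = (κ ⟨u, hu⟩).1 := by simp only [s, dif_pos hu]
    have h2 : s u' = (κ ⟨u', hu'⟩).1 := by simp only [s, dif_pos hu']
    rw [h1, h2]
    apply hC2 _ (κ ⟨u, hu⟩).2 _ (κ ⟨u', hu'⟩).2
    intro h3
    have h4 := κ.injective (Subtype.ext h3)
    exact hne (by simpa using h4)
  set F := 2 * g * L ^ 2 + 2 with hF
  have hFpos : 0 < F := by rw [hF]; positivity
  have hd1 : 1 ≤ g * e := Nat.one_le_iff_ne_zero.2 (by positivity)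
  let B : ℕ → ℕ := fun i => if i ≤ n then (2 * L * (n - i + 1)) ^ (g * e) * F ^ (n - i) else 0
  have hBle : ∀ i, i ≤ n → B i = (2 * L * (n - i + 1)) ^ (g * e) * F ^ (n - i) := by
    intro i hi; simp only [B, if_pos hi]
  have hBgt : ∀ i, ¬ i ≤ n → B i = 0 := by
    intro i hi; simp only [B, if_neg hi]
  have hlev : ∀ i, ∃ lft rgt : ℕ → ℕ → ℕ,
      (∀ u y, y < B (i + 1) → lft u y < B i) ∧
      (∀ u y, y < B (i + 1) → rgt u y < B i) ∧
      (∀ u y y', y < B (i + 1) → y' < B (i + 1) → lft u y = lft u y' → y = y') ∧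
      (∀ u y y', y < B (i + 1) → y' < B (i + 1) → rgt u y = rgt u y' → y = y') ∧
      (∀ u u' y y' y'', u < T → u' < T → y < B (i + 1) → y' < B (i + 1) → y'' < B (i + 1) →
        lft u y = lft u' y' → rgt u' y' = rgt u y'' → u = u') := by
    intro i
    by_cases hi : i + 1 ≤ n
    · have h1 : B (i + 1) = (2 * L * (n - i)) ^ (g * e) * F ^ (n - (i + 1)) := by
        rw [hBle _ hi]
        have : n - (i + 1) + 1 = n - i := by omega
        rw [this]
      have h2 : B i = (2 * L * (n - i) + 2 * L) ^ (g * e) * (F * F ^ (n - (i + 1))) := by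
        rw [hBle i (by omega)]
        have e1 : n - i = n - (i + 1) + 1 := by omega
        have e2 : 2 * L * (n - i + 1) = 2 * L * (n - i) + 2 * L := by ring
        rw [e2, e1, pow_succ F, mul_comm (F ^ (n - (i + 1))) F]
      rw [h1, h2]
      exact exists_level (g * e) e L g F _ _ he rfl hF T s hs
    · have h1 : B (i + 1) = 0 := hBgt _ hi
      refine ⟨fun _ _ => 0, fun _ _ => 0, ?_, ?_, ?_, ?_, ?_⟩
      · intro u y hy; rw [h1] at hy; omega
      · intro u y hy; rw [h1] at hy; omega
      · intro u y y' hy; rw [h1] at hy; omega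
      · intro u y y' hy; rw [h1] at hy; omega
      · intro u u' y y' y'' _ _ hy; rw [h1] at hy; omega
  choose lft rgt h1 h2 h3 h4 h5 using hlev
  have hemb : Nonempty (Fin k ↪ (Fin q → Fin T)) := by
    apply Function.Embedding.nonempty_of_card_le
    rw [Fintype.card_fin, Fintype.card_fun, Fintype.card_fin, Fintype.card_fin]
    exact hk
  obtain ⟨φ⟩ := hemb
  have hmono : ∀ i, B (i + 1) ≤ B i := by
    intro i
    by_cases hi : i + 1 ≤ n
    · rw [hBle _ hi, hBle i (by omega)]
      apply Nat.mul_le_mul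
      · apply Nat.pow_le_pow_left
        apply Nat.mul_le_mul_left
        omega
      · exact Nat.pow_le_pow_right hFpos (by omega)
    · rw [hBgt _ hi]; exact Nat.zero_le _
  refine ⟨{ b := T
            dg := fun x t => (φ x t : ℕ)
            dg_lt := fun x t => (φ x t).2
            dg_inj := fun x x' h => φ.injective (by funext t; exact Fin.ext (h t))
            B := B
            lft := lft
            rgt := rgt
            mono := hmono
            lft_lt := fun i u y _ hy => h1 i u y hy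
            rgt_lt := fun i u y _ hy => h2 i u y hy
            lft_inj := fun i u y y' _ hy hy' h => h3 i u y y' hy hy' h
            rgt_inj := fun i u y y' _ hy hy' h => h4 i u y y' hy hy' h
            key := h5 }, ?_, ?_⟩
  · change B 0 = _
    rw [hBle 0 (Nat.zero_le _)]
    simp
  · change 2 ≤ B n
    rw [hBle n le_rfl]
    simp only [Nat.sub_self, zero_add, mul_one, pow_zero]
    calc 2 ≤ 2 * L := by omega
      _ = (2 * L) ^ 1 := (pow_one _).symm
      _ ≤ (2 * L) ^ (g * e) := Nat.pow_le_pow_right (by omega) hd1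

end Pool.Agent.H554R2.Thrifty
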