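import Pool.Agent.H554R2.Thrifty.Code

/-!
# One level of the construction: shifts of spherical shells
-/

set_option autoImplicit false

namespace Pool.Agent.H554R2.Thrifty

open Finset

/-- The squared norm of a vector. -/
def nrm {d m : ℕ} (x : Fin d → Fin m) : ℕ := ∑ j, (x j : ℕ) ^ 2

/-- Codewords at Hamming distance at least `e` have squared distance at least `e`. -/
theorem sq_dist_ge {d L : ℕ} (x y : Fin d → Fin L) :
    (hammingDist x y : ℤ) ≤ ∑ j, ((x j : ℤ) - (y j : ℤ)) ^ 2 := by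
  classical
  have h1 : (hammingDist x y : ℤ) = ∑ j, (if x j ≠ y j then (1 : ℤ) else 0) := by
    unfold hammingDist
    rw [Finset.card_filter]
    push_cast
    rfl
  rw [h1]
  apply sum_le_sum
  intro j _
  split_ifs with h
  · have h2 : ((x j : ℕ) : ℤ) - ((y j : ℕ) : ℤ) ≠ 0 := by
      intro h3
      apply h
      apply Fin.ext
      omega
    have h3 : 0 < (((x j : ℕ) : ℤ) - ((y j : ℕ) : ℤ)) ^ 2 := by positivity
    omega
  · positivity

theorem sq_dist_le {d L : ℕ} (x y : Fin d → Fin L) :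
    ∑ j, ((x j : ℤ) - (y j : ℤ)) ^ 2 ≤ d * (L : ℤ) ^ 2 := by
  have : ∀ j ∈ (univ : Finset (Fin d)), ((x j : ℤ) - (y j : ℤ)) ^ 2 ≤ (L : ℤ) ^ 2 := by
    intro j _
    have h1 := (x j).2
    have h2 := (y j).2
    have h3 : (0 : ℤ) ≤ (x j : ℕ) := by positivity
    have h4 : (0 : ℤ) ≤ (y j : ℕ) := by positivity
    have h5 : ((x j : ℕ) : ℤ) < L := by exact_mod_cast h1
    have h6 : ((y j : ℕ) : ℤ) < L := by exact_mod_cast h2
    apply sq_le_sq'
    · omega
    · omega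
  calc _ ≤ ∑ _j : Fin d, (L : ℤ) ^ 2 := sum_le_sum this
    _ = d * (L : ℤ) ^ 2 := by simp

/-- The arithmetic behind the construction. -/
theorem window_arith (P e c S N₀ N₁ N₂ : ℤ) (he : 1 ≤ e) (hP : 2 * S + 2 * e ≤ P + 0)
    (hS : e ≤ S) (h : N₀ - 2 * N₁ + N₂ = 2 * S)
    (a₀ a₁ a₂ r₀ r₁ r₂ : ℤ) (h0 : N₀ = P * a₀ + e * c + r₀) (h1 : N₁ = P * a₁ + e * c + r₁)
    (h2 : N₂ = P * a₂ + e * c + r₂) (l0 : 0 ≤ r₀) (l1 : 0 ≤ r₁) (l2 : 0 ≤ r₂)
    (u0 : r₀ < e) (u1 : r₁ < e) (u2 : r₂ < e) : False := by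
  have key : P * (a₀ - 2 * a₁ + a₂) = 2 * S - (r₀ - 2 * r₁ + r₂) := by
    have h3 : P * (a₀ - 2 * a₁ + a₂) = N₀ - 2 * N₁ + N₂ - (r₀ - 2 * r₁ + r₂) := by
      rw [h0, h1, h2]; ring
    rw [h3, h]
  have hpos : 0 < P * (a₀ - 2 * a₁ + a₂) := by rw [key]; omega
  have hlt : P * (a₀ - 2 * a₁ + a₂) < P := by rw [key]; omega
  have hPpos : 0 < P := by omega
  have hA : 0 < a₀ - 2 * a₁ + a₂ := by
    by_contra hcon
    push Not at hcon
    have : P * (a₀ - 2 * a₁ + a₂) ≤ 0 := mul_nonpos_of_nonneg_of_nonpos hPpos.le hcon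
    omega
  have : P ≤ P * (a₀ - 2 * a₁ + a₂) := le_mul_of_one_le_right hPpos.le hA
  omega

/-- One level of the construction. -/
theorem exists_level (d e L g F m Φ : ℕ) (he : 1 ≤ e) (hd : d = g * e)
    (hF : F = 2 * g * L ^ 2 + 2) (T : ℕ) (s : ℕ → Fin d → Fin L)
    (hs : ∀ u u', u < T → u' < T → u ≠ u' → e ≤ hammingDist (s u) (s u')) :
    ∃ lft rgt : ℕ → ℕ → ℕ,
      (∀ u y, y < m ^ d * Φ → lft u y < (m + 2 * L) ^ d * (F * Φ)) ∧
      (∀ u y, y < m ^ d * Φ → rgt u y < (m + 2 * L) ^ d * (F * Φ)) ∧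
      (∀ u y y', y < m ^ d * Φ → y' < m ^ d * Φ → lft u y = lft u y' → y = y') ∧
      (∀ u y y', y < m ^ d * Φ → y' < m ^ d * Φ → rgt u y = rgt u y' → y = y') ∧
      (∀ u u' y y' y'', u < T → u' < T → y < m ^ d * Φ → y' < m ^ d * Φ → y'' < m ^ d * Φ →
        lft u y = lft u' y' → rgt u' y' = rgt u y'' → u = u') := by
  classical
  have hFpos : 0 < F := by rw [hF]; positivity
  -- the colouring
  have hcol : ∀ x : Fin d → Fin m, (nrm x % (e * F)) / e < F := by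
    intro x
    rw [Nat.div_lt_iff_lt_mul (by omega)]
    have := Nat.mod_lt (nrm x) (show 0 < e * F by positivity)
    rw [mul_comm F e]
    exact this
  let col : (Fin d → Fin m) → Fin F := fun x => ⟨(nrm x % (e * F)) / e, hcol x⟩
  have : Nonempty (Fin F) := ⟨⟨0, hFpos⟩⟩
  obtain ⟨c, hc⟩ : ∃ c : Fin F, m ^ d ≤ F * (univ.filter (fun x => col x = c)).card := by
    by_contra hcon
    push Not at hcon
    have h1 : m ^ d = ∑ c : Fin F, (univ.filter (fun x => col x = c)).card := by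
      rw [← card_eq_sum_card_fiberwise (f := col) (s := (univ : Finset (Fin d → Fin m)))
        (t := univ) (fun _ _ => mem_coe.2 (mem_univ _))]
      simp
    have h2 : F * m ^ d < F * m ^ d := by
      calc F * m ^ d = ∑ c : Fin F, F * (univ.filter (fun x => col x = c)).card := by
            rw [← mul_sum, ← h1]
        _ < ∑ _c : Fin F, m ^ d := sum_lt_sum_of_nonempty univ_nonempty (fun c _ => hcon c)
        _ = F * m ^ d := by simp
    exact lt_irrefl _ h2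
  -- the embedding of the memory block
  obtain ⟨φ⟩ : Nonempty (Fin (m ^ d * Φ) ↪ {x : Fin d → Fin m // col x = c} × Fin (F * Φ)) := by
    apply Function.Embedding.nonempty_of_card_le
    rw [Fintype.card_fin, Fintype.card_prod, Fintype.card_fin, Fintype.card_subtype]
    calc m ^ d * Φ ≤ (F * (univ.filter (fun x => col x = c)).card) * Φ :=
          Nat.mul_le_mul_right _ hc
      _ = _ := by ring
  obtain ⟨ψ⟩ : Nonempty ((Fin d → Fin (m + 2 * L)) × Fin (F * Φ) ↪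
      Fin ((m + 2 * L) ^ d * (F * Φ))) := by
    apply Function.Embedding.nonempty_of_card_le
    rw [Fintype.card_fin, Fintype.card_prod, Fintype.card_fin, Fintype.card_fun,
      Fintype.card_fin, Fintype.card_fin]
  -- the shifts
  let sh : ℕ → (Fin 3) → (Fin d → Fin m) → (Fin d → Fin (m + 2 * L)) := fun u a x j =>
    ⟨(x j : ℕ) + a * (s u j : ℕ), by
      have h1 := (x j).2
      have h2 := (s u j).2
      have h3 := a.2
      have h4 : (a : ℕ) * (s u j : ℕ) ≤ 2 * (s u j : ℕ) := Nat.mul_le_mul_right _ (by omega)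
      omega⟩
  let f : (Fin 3) → ℕ → ℕ → ℕ := fun a u y =>
    if hy : y < m ^ d * Φ then
      (ψ (sh u a (φ ⟨y, hy⟩).1.1, (φ ⟨y, hy⟩).2) : ℕ) else 0
  have hf : ∀ (a : Fin 3) u y (hy : y < m ^ d * Φ), f a u y =
      (ψ (sh u a (φ ⟨y, hy⟩).1.1, (φ ⟨y, hy⟩).2) : ℕ) := by
    intro a u y hy
    simp only [f, dif_pos hy]
  have hinj : ∀ (a a' : Fin 3) u u' y y' (hy : y < m ^ d * Φ) (hy' : y' < m ^ d * Φ),
      f a u y = f a' u' y' →
        (∀ j, (((φ ⟨y, hy⟩).1.1 j : ℕ) : ℤ) + (a : ℕ) * ((s u j : ℕ) : ℤ) =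
          (((φ ⟨y', hy'⟩).1.1 j : ℕ) : ℤ) + (a' : ℕ) * ((s u' j : ℕ) : ℤ)) ∧
        (φ ⟨y, hy⟩).2 = (φ ⟨y', hy'⟩).2 := by
    intro a a' u u' y y' hy hy' h
    rw [hf a u y hy, hf a' u' y' hy'] at h
    have h1 := ψ.injective (Fin.ext h)
    obtain ⟨h2, h3⟩ := Prod.mk.inj h1
    refine ⟨fun j => ?_, h3⟩
    have h4 := congrArg Fin.val (congrFun h2 j)
    simp only [sh] at h4
    exact_mod_cast h4
  have hinj' : ∀ (a : Fin 3) u y y', y < m ^ d * Φ → y' < m ^ d * Φ →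
      f a u y = f a u y' → y = y' := by
    intro a u y y' hy hy' h
    obtain ⟨h1, h2⟩ := hinj a a u u y y' hy hy' h
    have h3 : (φ ⟨y, hy⟩).1 = (φ ⟨y', hy'⟩).1 := by
      apply Subtype.ext
      funext j
      apply Fin.ext
      have := h1 j
      have h4 : (((φ ⟨y, hy⟩).1.1 j : ℕ) : ℤ) = (((φ ⟨y', hy'⟩).1.1 j : ℕ) : ℤ) := by linarith
      exact_mod_cast h4
    have h4 := φ.injective (Prod.ext h3 h2)
    simpa using h4
  refine ⟨f 2, f 1, ?_, ?_, hinj' 2, hinj' 1, ?_⟩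
  · intro u y hy
    rw [hf 2 u y hy]
    exact Fin.is_lt _
  · intro u y hy
    rw [hf 1 u y hy]
    exact Fin.is_lt _
  · intro u u' y y' y'' hu hu' hy hy' hy'' h h'
    obtain ⟨h1, -⟩ := hinj 2 2 u u' y y' hy hy' h
    obtain ⟨h2, -⟩ := hinj 1 1 u' u y' y'' hy' hy'' h'
    by_contra hne
    set x₀ := (φ ⟨y, hy⟩).1 with hx₀
    set x₂ := (φ ⟨y', hy'⟩).1 with hx₂
    set x₁ := (φ ⟨y'', hy''⟩).1 with hx₁
    have hδ : ∀ j, ((x₂.1 j : ℕ) : ℤ) = (x₀.1 j : ℕ) + 2 * ((s u j : ℕ) - (s u' j : ℕ)) ∧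
        ((x₁.1 j : ℕ) : ℤ) = (x₀.1 j : ℕ) + ((s u j : ℕ) - (s u' j : ℕ)) := by
      intro j
      have e1 := h1 j
      have e2 := h2 j
      simp only [Fin.val_two, Fin.val_one, Nat.cast_ofNat, Nat.cast_one, one_mul] at e1 e2
      constructor
      · linarith
      · linarith
    set S : ℤ := ∑ j, (((s u j : ℕ) : ℤ) - ((s u' j : ℕ) : ℤ)) ^ 2 with hSdef
    have hSlow : (e : ℤ) ≤ S := by
      have h3 := sq_dist_ge (s u) (s u')
      have h4 := hs u u' hu hu' hne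
      have h5 : (e : ℤ) ≤ (hammingDist (s u) (s u') : ℤ) := by exact_mod_cast h4
      exact h5.trans h3
    have hSup : S ≤ d * (L : ℤ) ^ 2 := sq_dist_le (s u) (s u')
    have hdec : ∀ x : {x : Fin d → Fin m // col x = c},
        ((nrm x.1 : ℕ) : ℤ) = ((e * F : ℕ) : ℤ) * ((nrm x.1 / (e * F) : ℕ) : ℤ) +
          (e : ℤ) * ((c : ℕ) : ℤ) + ((nrm x.1 % (e * F) % e : ℕ) : ℤ) ∧
        nrm x.1 % (e * F) % e < e := by
      intro x
      have h3 : nrm x.1 % (e * F) / e = (c : ℕ) := by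
        have := congrArg Fin.val x.2
        exact this
      refine ⟨?_, Nat.mod_lt _ (by omega)⟩
      have h4 := Nat.div_add_mod (nrm x.1) (e * F)
      have h5 := Nat.div_add_mod (nrm x.1 % (e * F)) e
      rw [h3] at h5
      rw [← h5] at h4
      have h6 : nrm x.1 = e * F * (nrm x.1 / (e * F)) + e * (c : ℕ) +
          nrm x.1 % (e * F) % e := by omega
      exact_mod_cast h6
    have hsec : ((nrm x₀.1 : ℕ) : ℤ) - 2 * ((nrm x₁.1 : ℕ) : ℤ) + ((nrm x₂.1 : ℕ) : ℤ) = 2 * S := by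
      unfold nrm
      push_cast
      rw [hSdef, mul_sum, mul_sum, ← sum_sub_distrib, ← sum_add_distrib]
      apply sum_congr rfl
      intro j _
      obtain ⟨e1, e2⟩ := hδ j
      rw [e1, e2]
      ring
    obtain ⟨d0, l0⟩ := hdec x₀
    obtain ⟨d1, l1⟩ := hdec x₁
    obtain ⟨d2, l2⟩ := hdec x₂
    refine window_arith ((e * F : ℕ) : ℤ) e (c : ℕ) S _ _ _ (by exact_mod_cast he) ?_ hSlow hsec
      _ _ _ _ _ _ d0 d1 d2 (by positivity) (by positivity) (by positivity)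
      (by exact_mod_cast l0) (by exact_mod_cast l1) (by exact_mod_cast l2)
    have hde : (d : ℤ) = g * e := by rw [hd]; push_cast; ring
    rw [hde] at hSup
    rw [hF]
    push_cast
    nlinarith

end Pool.Agent.H554R2.Thrifty
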