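import Pool.Agent.H554R2.Thrifty.Shell

/-!
# The upper bound for unambiguous thrifty programs
-/

set_option autoImplicit false

namespace Pool.Agent.H554R2.Thrifty

open Real

/-- The upper bound, for all heights and all alphabets. -/
theorem upper_all (ε : ℝ) (hε : 0 < ε) : ∃ C : ℝ, 0 < C ∧ ∀ n k : ℕ, 2 ≤ k →
    ∃ M : BP (Var k n) k, M.Unambiguous ∧ M.Solves (BT k n) ∧ M.Thrifty ∧
      (M.size : ℝ) ≤ (k : ℝ) ^ (4 + ε) *
        exp (C * (((n : ℝ) + 1) + √(((n : ℝ) + 1) * log k * log ((n : ℝ) + 2)))) := by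
  obtain ⟨Q, hQ⟩ := exists_nat_gt (7 / ε)
  have hQ0 : (0 : ℝ) < Q := lt_of_le_of_lt (by positivity) hQ
  have hQ1 : 1 ≤ Q := by
    have : 0 < Q := by exact_mod_cast hQ0
    omega
  have hQ1' : (1 : ℝ) ≤ Q := by exact_mod_cast hQ1
  have hQε : 7 / (Q : ℝ) ≤ ε := by
    rw [div_lt_iff₀ hε] at hQ
    rw [div_le_iff₀ hQ0]
    linarith
  set g : ℕ := Q + 2 with hg
  have hgcast : (g : ℝ) = Q + 2 := by rw [hg]; push_cast; ring
  have hgpos : (0 : ℝ) < g := by rw [hgcast]; linarith
  have hlam : (0 : ℝ) < log 2 := log_pos (by norm_num)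
  have hlam1 : log 2 ≤ 1 := by
    have := log_le_sub_one_of_pos (show (0 : ℝ) < 2 by norm_num)
    linarith
  have hlog4g : 0 ≤ log (4 * g) := log_nonneg (by rw [hgcast]; linarith)
  have hlog4Q : 0 ≤ log (4 * Q + 1) := log_nonneg (by linarith)
  set C1 : ℝ := g * (1 + g) + 2 * g / (log 2 * Q ^ 2) + 2 * g + log (4 * g) + 2 * (1 + g) with hC1
  have hC1pos : 0 < C1 := by positivity
  refine ⟨2 + log (4 * Q + 1) + (2 * Q + 1) * C1, by positivity, ?_⟩
  intro n k hk
  set h : ℝ := (n : ℝ) + 1 with hh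
  have hn0 : (0 : ℝ) ≤ n := Nat.cast_nonneg n
  have hh1 : 1 ≤ h := by linarith
  have hhpos : 0 < h := by linarith
  have hk1 : (1 : ℝ) < k := by
    have : (2 : ℝ) ≤ k := by exact_mod_cast hk
    linarith
  have hk0 : (0 : ℝ) < k := by linarith
  set β := log (k : ℝ) with hβ
  have hβpos : 0 < β := log_pos hk1
  set ℓ := log ((n : ℝ) + 2) with hℓ
  have hℓpos : 0 < ℓ := log_pos (by linarith)
  have hℓh : ℓ ≤ h := by
    have := log_le_sub_one_of_pos (show (0 : ℝ) < (n : ℝ) + 2 by linarith)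
    rw [hh]; linarith
  set R := √(h * β * ℓ) with hR
  have hRpos : 0 < R := Real.sqrt_pos.2 (by positivity)
  have hR2 : R ^ 2 = h * β * ℓ := Real.sq_sqrt (by positivity)
  -- parameters
  set Lam : ℕ := ⌈R / h⌉₊ + g with hLam
  have hLam1 : R / h ≤ Lam := by
    rw [hLam]; push_cast
    have := Nat.le_ceil (R / h)
    linarith
  have hLam2 : (Lam : ℝ) ≤ R / h + 1 + g := by
    rw [hLam]; push_cast
    have := (Nat.ceil_lt_add_one (show 0 ≤ R / h by positivity)).le
    linarith
  have hLamg : g ≤ Lam := by rw [hLam]; exact Nat.le_add_left _ _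
  have hLampos : (0 : ℝ) < Lam := lt_of_lt_of_le (by positivity) hLam1
  set L : ℕ := 2 ^ Lam with hL
  have hlogL : log (L : ℝ) = Lam * log 2 := by
    rw [hL]; push_cast; rw [log_pow]
  have hLcast1 : (1 : ℝ) ≤ L := by
    have : 1 ≤ L := Nat.one_le_two_pow
    exact_mod_cast this
  set e : ℕ := ⌈β / (Lam * log 2 * Q ^ 2)⌉₊ with he
  have hden : 0 < (Lam : ℝ) * log 2 * Q ^ 2 := by positivity
  have he1 : 1 ≤ e := by
    rw [he]
    exact Nat.one_le_iff_ne_zero.2 (Nat.ceil_pos.2 (by positivity)).ne'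
  have hele : (e : ℝ) ≤ β / (Lam * log 2 * Q ^ 2) + 1 :=
    (Nat.ceil_lt_add_one (by positivity)).le
  have hege : β ≤ Lam * log 2 * Q ^ 2 * e := by
    have h1 : β / (Lam * log 2 * Q ^ 2) ≤ e := Nat.le_ceil _
    rw [div_le_iff₀ hden] at h1
    linarith
  have hkT : k ≤ (L ^ ((g - 2) * e)) ^ Q := by
    have h1 : (k : ℝ) ≤ ((L : ℝ) ^ ((g - 2) * e)) ^ Q := by
      rw [← pow_mul, ← Real.exp_log hk0, ← Real.exp_log (show (0 : ℝ) < (L : ℝ) ^ ((g - 2) * e * Q)
        by positivity)]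
      apply exp_le_exp.2
      rw [log_pow, hlogL, hg, Nat.add_sub_cancel]
      push_cast
      calc β ≤ Lam * log 2 * Q ^ 2 * e := hege
        _ = (Q : ℝ) * e * Q * (Lam * log 2) := by ring
    exact_mod_cast h1
  obtain ⟨P, hP0, hPn⟩ := exists_params_shell k Q g e L n (by omega) he1
    (Nat.pow_le_pow_right (by norm_num) hLamg) hkT
  obtain ⟨M, m1, m2, m3, m4⟩ := exists_BP P (by omega) n hPn
  refine ⟨M, m1, m2, m3, ?_⟩
  set B0 : ℝ := (2 * (L : ℝ) * h) ^ (g * e) * (2 * g * (L : ℝ) ^ 2 + 2) ^ n with hB0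
  have hB01 : 1 ≤ B0 := by
    rw [hB0]
    apply one_le_mul_of_one_le_of_one_le
    · apply one_le_pow₀; nlinarith
    · apply one_le_pow₀
      have : 0 ≤ 2 * (g : ℝ) * (L : ℝ) ^ 2 := by positivity
      linarith
  set X : ℝ := (4 * (Q : ℝ) + 1) ^ n * ((k : ℝ) ^ 2 * B0 ^ (2 * Q + 1)) with hX
  have hX1 : 1 ≤ X := by
    rw [hX]
    apply one_le_mul_of_one_le_of_one_le
    · apply one_le_pow₀; linarith
    · apply one_le_mul_of_one_le_of_one_le
      · exact one_le_pow₀ hk1.le
      · exact one_le_pow₀ hB01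
  have hsize : (M.size : ℝ) ≤ 4 * X := by
    have h1 : (M.size : ℝ) ≤ X + 3 := by
      rw [hP0] at m4
      have h2 : (M.size : ℝ) ≤ (((4 * Q + 1) ^ n * (k ^ 2 * ((2 * L * (n + 1)) ^ (g * e) *
        (2 * g * L ^ 2 + 2) ^ n) ^ (2 * Q + 1)) + 3 : ℕ) : ℝ) := by exact_mod_cast m4
      refine h2.trans (le_of_eq ?_)
      rw [hX, hB0, hh]
      push_cast
      ring
    linarith
  -- logarithms
  have hlogB0 : log B0 ≤ (Q + 2) / Q ^ 2 * β + C1 * (h + R) := by
    have e1 : log B0 = g * e * (log 2 + Lam * log 2 + log h) +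
        n * log (2 * g * (L : ℝ) ^ 2 + 2) := by
      rw [hB0, log_mul (by positivity) (by positivity), log_pow, log_pow,
        log_mul (by positivity) (by positivity), log_mul (by positivity) (by positivity), hlogL]
      push_cast
      ring
    have e2 : log 2 + log h ≤ 2 * ℓ := by
      rw [← log_mul (by norm_num) (by positivity), hℓ]
      have : 2 * log ((n : ℝ) + 2) = log (((n : ℝ) + 2) ^ 2) := by rw [log_pow]; norm_num
      rw [this]
      apply log_le_log (by positivity)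
      rw [hh]
      nlinarith
    have e3 : (g : ℝ) * e * (Lam * log 2) ≤ (Q + 2) / Q ^ 2 * β + g * ((R + (1 + g) * h)) := by
      have f1 : (g : ℝ) * e * (Lam * log 2) ≤
          g * (β / (Lam * log 2 * Q ^ 2) + 1) * (Lam * log 2) := by gcongr
      have f2 : (g : ℝ) * (β / (Lam * log 2 * Q ^ 2) + 1) * (Lam * log 2) =
          (Q + 2) / Q ^ 2 * β + g * (Lam * log 2) := by
        rw [hgcast]
        field_simp
      have f3 : (Lam : ℝ) * log 2 ≤ R + (1 + g) * h := by
        calc (Lam : ℝ) * log 2 ≤ Lam * 1 := by gcongr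
          _ = Lam := mul_one _
          _ ≤ R / h + 1 + g := hLam2
          _ ≤ R + (1 + g) * h := by
            have : R / h ≤ R := div_le_self hRpos.le hh1
            nlinarith
      rw [f2] at f1
      refine f1.trans ?_
      gcongr
    have e4 : (g : ℝ) * e * (log 2 + log h) ≤ 2 * g / (log 2 * Q ^ 2) * R + 2 * g * h := by
      have f1 : (g : ℝ) * e * (log 2 + log h) ≤
          g * (β / (Lam * log 2 * Q ^ 2) + 1) * (2 * ℓ) := by
        apply mul_le_mul _ e2 _ (by positivity)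
        · gcongr
        · have : 0 ≤ log h := log_nonneg hh1
          positivity
      have f2 : β * ℓ / Lam ≤ R := by
        rw [div_le_iff₀ hLampos]
        have f3 : R * (R / h) ≤ R * Lam := by gcongr
        have f4 : R * (R / h) = β * ℓ := by
          have : R * (R / h) = R ^ 2 / h := by ring
          rw [this, hR2]
          field_simp
        linarith
      have f3 : (g : ℝ) * (β / (Lam * log 2 * Q ^ 2) + 1) * (2 * ℓ) =
          2 * g / (log 2 * Q ^ 2) * (β * ℓ / Lam) + 2 * g * ℓ := by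
        field_simp
      rw [f3] at f1
      refine f1.trans ?_
      gcongr
    have e5 : (n : ℝ) * log (2 * g * (L : ℝ) ^ 2 + 2) ≤ h * log (4 * g) + 2 * (R + (1 + g) * h) := by
      have f1 : log (2 * g * (L : ℝ) ^ 2 + 2) ≤ log (4 * g) + 2 * (Lam * log 2) := by
        have : log (4 * g) + 2 * (Lam * log 2) = log (4 * g * (L : ℝ) ^ 2) := by
          rw [log_mul (show (4 * (g : ℝ)) ≠ 0 by positivity)
            (show ((L : ℝ) ^ 2) ≠ 0 by positivity), log_pow, hlogL]
          push_cast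
          ring
        rw [this]
        apply log_le_log (by positivity)
        have h1 : (1 : ℝ) ≤ (L : ℝ) ^ 2 := one_le_pow₀ hLcast1
        have h2 : (1 : ℝ) ≤ g := by rw [hgcast]; linarith
        nlinarith
      have f2 : h * (Lam * log 2) ≤ R + (1 + g) * h := by
        calc h * (Lam * log 2) ≤ h * (Lam * 1) := by gcongr
          _ = h * Lam := by rw [mul_one]
          _ ≤ h * (R / h + 1 + g) := by gcongr
          _ = R + (1 + g) * h := by field_simp; ring
      calc (n : ℝ) * log (2 * g * (L : ℝ) ^ 2 + 2) ≤ h * (log (4 * g) + 2 * (Lam * log 2)) := by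
            apply mul_le_mul (by rw [hh]; linarith) f1 _ hhpos.le
            apply log_nonneg
            have : 0 ≤ 2 * (g : ℝ) * (L : ℝ) ^ 2 := by positivity
            linarith
        _ = h * log (4 * g) + 2 * (h * (Lam * log 2)) := by ring
        _ ≤ _ := by gcongr
    have e6 : log B0 ≤ (Q + 2) / Q ^ 2 * β + g * ((R + (1 + g) * h)) +
        (2 * g / (log 2 * Q ^ 2) * R + 2 * g * h) +
        (h * log (4 * g) + 2 * (R + (1 + g) * h)) := by
      rw [e1]
      have : (g : ℝ) * e * (log 2 + Lam * log 2 + log h) =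
        g * e * (Lam * log 2) + g * e * (log 2 + log h) := by ring
      rw [this]
      linarith
    refine e6.trans ?_
    have e7 : (0 : ℝ) ≤ 2 * g / (log 2 * Q ^ 2) := by positivity
    rw [hC1]
    have g1 : 0 ≤ g * (g * R) := by positivity
    have g2 : 0 ≤ (2 * g / (log 2 * Q ^ 2)) * h := by positivity
    have g3 : 0 ≤ g * R := by positivity
    have g4 : 0 ≤ log (4 * g) * R := by positivity
    nlinarith
  have hlogX : log (4 * X) ≤ (4 + ε) * β +
      (2 + log (4 * Q + 1) + (2 * Q + 1) * C1) * (h + R) := by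
    have e1 : log (4 * X) = log 4 + n * log (4 * Q + 1) + 2 * β + (2 * Q + 1) * log B0 := by
      rw [log_mul (by norm_num) (by positivity), hX, log_mul (by positivity) (by positivity),
        log_mul (by positivity) (by positivity), log_pow, log_pow, log_pow]
      push_cast
      ring
    have e2 : log 4 ≤ 2 := by
      have : log 4 = 2 * log 2 := by
        rw [show (4 : ℝ) = 2 ^ 2 by norm_num, log_pow]; norm_num
      rw [this]; linarith
    have e3 : (n : ℝ) * log (4 * Q + 1) ≤ log (4 * Q + 1) * (h + R) := by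
      rw [mul_comm]
      apply mul_le_mul_of_nonneg_left _ hlog4Q
      rw [hh]; linarith
    have e4 : (2 * (Q : ℝ) + 1) * ((Q + 2) / Q ^ 2 * β) ≤ (2 + ε) * β := by
      have f1 : (2 * (Q : ℝ) + 1) * ((Q + 2) / Q ^ 2) ≤ 2 + ε := by
        have f2 : (2 * (Q : ℝ) + 1) * ((Q + 2) / Q ^ 2) = 2 + 5 / Q + 2 / Q ^ 2 := by
          field_simp; ring
        have f3 : 2 / (Q : ℝ) ^ 2 ≤ 2 / Q := by
          apply div_le_div_of_nonneg_left (by norm_num) hQ0
          nlinarith
        have f4 : 5 / (Q : ℝ) + 2 / Q = 7 / Q := by ring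
        rw [f2]
        linarith
      calc (2 * (Q : ℝ) + 1) * ((Q + 2) / Q ^ 2 * β)
          = ((2 * (Q : ℝ) + 1) * ((Q + 2) / Q ^ 2)) * β := by ring
        _ ≤ (2 + ε) * β := by gcongr
    have e5 : (2 * (Q : ℝ) + 1) * log B0 ≤ (2 + ε) * β + (2 * Q + 1) * C1 * (h + R) := by
      calc (2 * (Q : ℝ) + 1) * log B0 ≤ (2 * (Q : ℝ) + 1) * ((Q + 2) / Q ^ 2 * β + C1 * (h + R)) := by
            gcongr
        _ = (2 * (Q : ℝ) + 1) * ((Q + 2) / Q ^ 2 * β) + (2 * Q + 1) * C1 * (h + R) := by ring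
        _ ≤ _ := by linarith
    rw [e1]
    nlinarith
  calc (M.size : ℝ) ≤ 4 * X := hsize
    _ = exp (log (4 * X)) := (Real.exp_log (by positivity)).symm
    _ ≤ exp ((4 + ε) * β + (2 + log (4 * Q + 1) + (2 * Q + 1) * C1) * (h + R)) :=
        exp_le_exp.2 hlogX
    _ = (k : ℝ) ^ (4 + ε) * exp ((2 + log (4 * Q + 1) + (2 * Q + 1) * C1) * (h + R)) := by
        rw [exp_add, Real.rpow_def_of_pos hk0, mul_comm β]

end Pool.Agent.H554R2.Thrifty
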